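import Pool.Agent.T2H95.LF.Stm
import Pool.Agent.T2H51.LQ.Defs

/-! # The concrete quadratic characters, and sums with decreasing weights -/

set_option autoImplicit false
set_option linter.unusedSectionVars false

open MeasureTheory Filter Topology Finset NumberField IsDedekindDomain
open Pool.Agent.T2H51.LQ (ordI chiP chi)

namespace Pool.Agent.T2H95.LF

variable (F : Type) [Field F] [NumberField F]

/-- the weighted partial sums `∑_{N(I) ≤ N} λ_x(I) g(I) N(I)^{-1/2-it} V(N(I))` -/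
noncomputable def SV (x : Ideal (𝓞 F) → ℝ) (g : Ideal (𝓞 F) → ℂ) (V : ℕ → ℝ) (N : ℕ) (t : ℝ) : ℂ :=
  ∑ I ∈ ball F N, (lamI F x I : ℂ) * g I * ((Ideal.absNorm I : ℕ) : ℂ) ^ (-(1 / 2 : ℂ) - t * Complex.I) *
    (V (Ideal.absNorm I) : ℂ)

namespace CHI

/-- summation by parts -/
lemma parts (s t : ℕ → ℂ) (V : ℕ → ℝ) (hV : Antitone V) (hV0 : ∀ n, 0 ≤ V n) (hV1 : ∀ n, V n ≤ 1)
    (h0 : s 0 = 0) (h0' : t 0 = 0) (h : ∀ n, t (n + 1) - t n = V (n + 1) * (s (n + 1) - s n))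
    (M : ℝ) (N : ℕ) (hM : ∀ n, n ≤ N → ‖s n‖ ≤ M) : ‖t N‖ ≤ M := by
  have hM0 : 0 ≤ M := (norm_nonneg _).trans (hM 0 (Nat.zero_le _))
  have key : ∀ n, n ≤ N → ‖t n - V n * s n‖ ≤ M * (V 0 - V n) := by
    intro n
    induction n with
    | zero => intro _; rw [h0, h0']; simp
    | succ n ih =>
        intro hn
        have h1 := ih (by omega)
        have h2 : t (n + 1) - V (n + 1) * s (n + 1) =
            (t n - V n * s n) + ((V n - V (n + 1) : ℝ) : ℂ) * s n := by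
          push_cast
          linear_combination h n
        rw [h2]
        have h3 := hM n (by omega)
        have h4 : 0 ≤ V n - V (n + 1) := sub_nonneg.2 (hV (Nat.le_succ n))
        have h5 : ‖((V n - V (n + 1) : ℝ) : ℂ) * s n‖ ≤ (V n - V (n + 1)) * M := by
          rw [norm_mul, Complex.norm_real, Real.norm_of_nonneg h4]
          exact mul_le_mul_of_nonneg_left h3 h4
        calc ‖(t n - V n * s n) + ((V n - V (n + 1) : ℝ) : ℂ) * s n‖ ≤ _ := norm_add_le _ _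
          _ ≤ M * (V 0 - V n) + (V n - V (n + 1)) * M := add_le_add h1 h5
          _ = M * (V 0 - V (n + 1)) := by ring
  have h1 := key N le_rfl
  have h2 : ‖(V N : ℂ) * s N‖ ≤ V N * M := by
    rw [norm_mul, Complex.norm_real, Real.norm_of_nonneg (hV0 N)]
    exact mul_le_mul_of_nonneg_left (hM N le_rfl) (hV0 N)
  have h3 : ‖t N‖ ≤ ‖t N - V N * s N‖ + ‖(V N : ℂ) * s N‖ := by
    have := norm_add_le (t N - V N * s N) (V N * s N)
    rwa [sub_add_cancel] at this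
  have h4 : M * (V 0 - V N) + V N * M ≤ M := by
    have := mul_le_mul_of_nonneg_left (hV1 0) hM0
    nlinarith
  linarith

lemma ball_zero : ball F 0 = ∅ := by
  ext I
  rw [mem_ball]
  constructor
  · rintro ⟨h1, h2⟩
    exact absurd (Ideal.absNorm_eq_zero_iff.1 (Nat.le_zero.1 h2)) h1
  · intro h
    simp at h

lemma sum_succ (f : Ideal (𝓞 F) → ℂ) (n : ℕ) :
    ∑ I ∈ ball F (n + 1), f I - ∑ I ∈ ball F n, f I =
      ∑ I ∈ (ball F (n + 1)).filter (fun I => Ideal.absNorm I = n + 1), f I := by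
  classical
  rw [← Finset.sum_filter_add_sum_filter_not (ball F (n + 1)) (fun I => Ideal.absNorm I = n + 1)]
  have h : (ball F (n + 1)).filter (fun I => ¬ Ideal.absNorm I = n + 1) = ball F n := by
    ext I
    simp only [Finset.mem_filter, mem_ball]
    constructor
    · rintro ⟨⟨a, b⟩, c⟩
      exact ⟨a, by omega⟩
    · rintro ⟨a, b⟩
      exact ⟨⟨a, by omega⟩, by omega⟩
  rw [h]
  ring

/-- a bound for all shorter sums gives the same bound for the weighted sum -/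
theorem weighted (x : Ideal (𝓞 F) → ℝ) (g : Ideal (𝓞 F) → ℂ) (V : ℕ → ℝ) (hV : Antitone V)
    (hV0 : ∀ n, 0 ≤ V n) (hV1 : ∀ n, V n ≤ 1) (N : ℕ) (t M : ℝ)
    (h : ∀ n, n ≤ N → ‖SI F x g n t‖ ≤ M) : ‖SV F x g V N t‖ ≤ M := by
  refine parts (fun n => SI F x g n t) (fun n => SV F x g V n t) V hV hV0 hV1 ?_ ?_ ?_ M N h
  · simp [SI, ball_zero]
  · simp [SV, ball_zero]
  · intro n
    simp only [SI, SV]
    rw [sum_succ, sum_succ, Finset.mul_sum]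
    refine Finset.sum_congr rfl fun I hI => ?_
    rw [(Finset.mem_filter.1 hI).2]
    ring

variable {F}

lemma chiP_abs (D : 𝓞 F) (v : HeightOneSpectrum (𝓞 F)) : |chiP D v| ≤ 1 := by
  unfold chiP
  split_ifs <;> simp

lemma chi_abs (D : 𝓞 F) (I : Ideal (𝓞 F)) : |chi D I| ≤ 1 := by
  unfold chi
  by_cases h : (Function.mulSupport fun v => chiP D v ^ ordI v I).Finite
  · rw [finprod_eq_prod _ h, Finset.abs_prod]
    refine Finset.prod_le_one (fun _ _ => abs_nonneg _) fun v _ => ?_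
    rw [abs_pow]
    exact pow_le_one₀ (abs_nonneg _) (chiP_abs D v)
  · rw [finprod_of_infinite_mulSupport h]
    simp

lemma sq_iff (u : (𝓞 F)ˣ) (D : 𝓞 F) (J : Ideal (𝓞 F)) :
    (∃ x : 𝓞 F, (u : 𝓞 F) ^ 2 * D - x ^ 2 ∈ J) ↔ ∃ x : 𝓞 F, D - x ^ 2 ∈ J := by
  constructor
  · rintro ⟨x, hx⟩
    refine ⟨((u⁻¹ : (𝓞 F)ˣ) : 𝓞 F) * x, ?_⟩
    have h1 := J.mul_mem_left (((u⁻¹ : (𝓞 F)ˣ) : 𝓞 F) ^ 2) hx
    have h2 : ((u⁻¹ : (𝓞 F)ˣ) : 𝓞 F) * (u : 𝓞 F) = 1 := Units.inv_mul u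
    have h3 : ((u⁻¹ : (𝓞 F)ˣ) : 𝓞 F) ^ 2 * ((u : 𝓞 F) ^ 2 * D - x ^ 2) =
        D - (((u⁻¹ : (𝓞 F)ˣ) : 𝓞 F) * x) ^ 2 := by
      have : ((u⁻¹ : (𝓞 F)ˣ) : 𝓞 F) ^ 2 * (u : 𝓞 F) ^ 2 = 1 := by rw [← mul_pow, h2, one_pow]
      linear_combination D * this
    rwa [h3] at h1
  · rintro ⟨x, hx⟩
    refine ⟨(u : 𝓞 F) * x, ?_⟩
    have h1 := J.mul_mem_left ((u : 𝓞 F) ^ 2) hx
    have h3 : (u : 𝓞 F) ^ 2 * (D - x ^ 2) = (u : 𝓞 F) ^ 2 * D - ((u : 𝓞 F) * x) ^ 2 := by ring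
    rwa [h3] at h1

lemma mem_iff (u : (𝓞 F)ˣ) (D : 𝓞 F) (J : Ideal (𝓞 F)) : (u : 𝓞 F) ^ 2 * D ∈ J ↔ D ∈ J := by
  constructor
  · intro h
    have h1 := J.mul_mem_left (((u⁻¹ : (𝓞 F)ˣ) : 𝓞 F) ^ 2) h
    have h2 : ((u⁻¹ : (𝓞 F)ˣ) : 𝓞 F) * (u : 𝓞 F) = 1 := Units.inv_mul u
    rwa [← mul_assoc, ← mul_pow, h2, one_pow, one_mul] at h1
  · exact fun h => J.mul_mem_left _ h

lemma chiP_unit (u : (𝓞 F)ˣ) (D : 𝓞 F) (v : HeightOneSpectrum (𝓞 F)) :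
    chiP ((u : 𝓞 F) ^ 2 * D) v = chiP D v := by
  unfold chiP
  rw [mem_iff u D, sq_iff u D, sq_iff u D]

lemma chi_unit (u : (𝓞 F)ˣ) (D : 𝓞 F) : chi ((u : 𝓞 F) ^ 2 * D) = chi D := by
  funext I
  unfold chi
  refine finprod_congr fun v => ?_
  rw [chiP_unit]

end CHI

end Pool.Agent.T2H95.LF
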