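import Pool.Agent.T2H95.LF.Stm

set_option autoImplicit false

open MeasureTheory Filter Topology Finset NumberField UniqueFactorizationMonoid

namespace Pool.Agent.T2H95.LF

namespace LIN

/-- `√(L log L) = o(L)`, quantitative form. -/
theorem sqrt_llog {C β : ℝ} (hβ : 0 < β) : ∃ K : ℝ, ∀ L : ℝ, 1 ≤ L →
    C * Real.sqrt (L * Real.log L) ≤ β * L + K := by
  -- `|C| √(L log L) ≤ (β/2)·L + ...`: use `log L ≤ L^(1/2) · 2`, so `√(L log L) ≤ √2 · L^(3/4)`
  refine ⟨27 * (|C| * 2) ^ 4 / (4 * (β) ^ 3) / 64 + (|C| * 2) ^ 4 / β ^ 3, ?_⟩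
  intro L hL
  have hL0 : 0 ≤ L := by linarith
  set s := Real.sqrt (Real.sqrt L) with hs
  have hs0 : 0 ≤ s := Real.sqrt_nonneg _
  have hs2 : s ^ 2 = Real.sqrt L := Real.sq_sqrt (Real.sqrt_nonneg _)
  have hs4 : s ^ 4 = L := by
    rw [show s ^ 4 = (s ^ 2) ^ 2 by ring, hs2, Real.sq_sqrt hL0]
  have hLpos : 0 < L := by linarith
  have hsqL : 0 < Real.sqrt L := Real.sqrt_pos.2 hLpos
  have hlog : Real.log L ≤ 2 * s ^ 2 := by
    have h1 : Real.log L = 2 * Real.log (Real.sqrt L) := by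
      rw [Real.log_sqrt hL0]; ring
    rw [h1, hs2]
    have := Real.log_le_self hsqL.le
    linarith
  have hmain : Real.sqrt (L * Real.log L) ≤ 2 * s ^ 3 := by
    apply Real.sqrt_le_iff.2
    refine ⟨by positivity, ?_⟩
    have h0 : 0 ≤ s ^ 6 := by positivity
    calc L * Real.log L ≤ L * (2 * s ^ 2) := by gcongr
      _ = 2 * s ^ 6 := by rw [← hs4]; ring
      _ ≤ (2 * s ^ 3) ^ 2 := by nlinarith
  have hC : C * Real.sqrt (L * Real.log L) ≤ (|C| * 2) * s ^ 3 := by
    calc C * Real.sqrt (L * Real.log L) ≤ |C| * Real.sqrt (L * Real.log L) := by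
          apply mul_le_mul_of_nonneg_right (le_abs_self C) (Real.sqrt_nonneg _)
      _ ≤ |C| * (2 * s ^ 3) := by gcongr
      _ = _ := by ring
  refine hC.trans ?_
  set D := |C| * 2 with hD
  have hD0 : 0 ≤ D := by positivity
  rw [← hs4]
  -- D s^3 ≤ β s^4 + D^4/β^3
  have key : D * s ^ 3 ≤ β * s ^ 4 + D ^ 4 / β ^ 3 := by
    by_cases h : D ≤ β * s
    · have : D * s ^ 3 ≤ β * s * s ^ 3 := by gcongr
      have h2 : 0 ≤ D ^ 4 / β ^ 3 := by positivity
      nlinarith
    · push Not at h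
      have hsD : s ≤ D / β := by
        rw [le_div_iff₀ hβ]
        linarith
      have h2 : D * s ^ 3 ≤ D * (D / β) ^ 3 := by gcongr
      have h3 : D * (D / β) ^ 3 = D ^ 4 / β ^ 3 := by
        field_simp
      have h4 : 0 ≤ β * s ^ 4 := by positivity
      linarith
  have h5 : 0 ≤ 27 * D ^ 4 / (4 * β ^ 3) / 64 := by positivity
  linarith

end LIN

open LIN in
theorem pLIN (F : Type) [Field F] [NumberField F] (hFIN : S_FIN F) : S_LIN F := by
  intro ι g cd hfam hcd μ hμ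
  filter_upwards [hFIN ι g cd hfam μ hμ] with x hx
  obtain ⟨C, hC⟩ := hx
  intro A β hA hβ
  -- exponent `m = max A 1`
  set m : ℝ := max A 1 with hm
  have hm1 : 1 ≤ m := le_max_right _ _
  have hmA : A ≤ m := le_max_left _ _
  obtain ⟨K, hK⟩ := sqrt_llog (C := C) (β := β / m) (by positivity)
  refine ⟨Real.exp (β / m * Real.log 3 + K), ?_⟩
  intro i N t hN ht
  have hq1 : (1 : ℝ) ≤ cd i := by exact_mod_cast hcd i
  have hq0 : (0 : ℝ) < cd i := by linarith
  set Q : ℝ := 3 * (cd i : ℝ) ^ m with hQ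
  have hqm : (1 : ℝ) ≤ (cd i : ℝ) ^ m := Real.one_le_rpow hq1 (by linarith)
  have hqA : (cd i : ℝ) ^ A ≤ (cd i : ℝ) ^ m := Real.rpow_le_rpow_of_exponent_le hq1 hmA
  have hq1m : (cd i : ℝ) ≤ (cd i : ℝ) ^ m := by
    calc (cd i : ℝ) = (cd i : ℝ) ^ (1 : ℝ) := (Real.rpow_one _).symm
      _ ≤ _ := Real.rpow_le_rpow_of_exponent_le hq1 hm1
  have h3Q : 3 ≤ Q := by rw [hQ]; linarith
  refine (hC Q i N t h3Q (by linarith) (by linarith) (by linarith)).trans ?_
  have hlogQ : Real.log Q = Real.log 3 + m * Real.log (cd i) := by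
    rw [hQ, Real.log_mul (by norm_num) (by positivity), Real.log_rpow hq0]
  have hlog1 : 1 ≤ Real.log Q := by
    have h1 : Real.log 3 ≤ Real.log Q := Real.log_le_log (by norm_num) h3Q
    have h2 : 1 ≤ Real.log 3 := by
      rw [Real.le_log_iff_exp_le (by norm_num)]
      have := Real.exp_one_lt_d9
      linarith
    linarith
  have h4 := hK (Real.log Q) hlog1
  calc Real.exp (C * Real.sqrt (Real.log Q * Real.log (Real.log Q)))
      ≤ Real.exp (β / m * Real.log Q + K) := Real.exp_le_exp.2 h4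
    _ = Real.exp (β / m * Real.log 3 + K) * (cd i : ℝ) ^ β := by
      rw [Real.rpow_def_of_pos hq0, ← Real.exp_add]
      congr 1
      rw [hlogQ]
      have hm0 : m ≠ 0 := by positivity
      field_simp
      ring

end Pool.Agent.T2H95.LF
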