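import Pool.Agent.T2H95.LF.CHI
import Pool.Agent.T2H95.LF.LIN

/-! # Convergence of the twisted L-series to the right of the critical line, with the Lindelöf bound -/

set_option autoImplicit false
set_option linter.unusedSectionVars false

open MeasureTheory Filter Topology Finset NumberField

namespace Pool.Agent.T2H95.LF

namespace LS

/-- the weights `n^{-δ}` -/
noncomputable def V (δ : ℝ) (n : ℕ) : ℝ := ((max n 1 : ℕ) : ℝ) ^ (-δ)

lemma V_zero (δ : ℝ) : V δ 0 = 1 := by simp [V]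

lemma V_pos (δ : ℝ) (n : ℕ) : 0 < V δ n := by
  unfold V
  have : 0 < ((max n 1 : ℕ) : ℝ) := by exact_mod_cast (lt_of_lt_of_le one_pos (le_max_right n 1))
  positivity

lemma V_anti {δ : ℝ} (hδ : 0 < δ) : Antitone (V δ) := by
  intro m n h
  unfold V
  have h1 : 0 < ((max m 1 : ℕ) : ℝ) := by exact_mod_cast (lt_of_lt_of_le one_pos (le_max_right m 1))
  apply Real.rpow_le_rpow_of_nonpos h1
  · exact_mod_cast max_le_max h le_rfl
  · linarith

lemma V_le_one {δ : ℝ} (hδ : 0 < δ) (n : ℕ) : V δ n ≤ 1 := by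
  rw [← V_zero δ]
  exact V_anti hδ (Nat.zero_le n)

lemma diff_le {δ : ℝ} (hδ : 0 < δ) (n : ℕ) (hn : 1 ≤ n) :
    V δ n - V δ (n + 1) ≤ δ * (n : ℝ) ^ (-δ - 1) := by
  have hn0 : (0 : ℝ) < n := by exact_mod_cast hn
  have e1 : V δ n = (n : ℝ) ^ (-δ) := by unfold V; rw [max_eq_left hn]
  have e2 : V δ (n + 1) = ((n : ℝ) + 1) ^ (-δ) := by
    unfold V; rw [max_eq_left (by omega)]; push_cast; rfl
  rw [e1, e2]
  have h1 : ((n : ℝ) + 1) ^ (-δ) = (n : ℝ) ^ (-δ) * (1 + 1 / (n : ℝ)) ^ (-δ) := by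
    rw [← Real.mul_rpow hn0.le (by positivity)]
    congr 1
    field_simp
  have h2 : 1 - δ * (1 / (n : ℝ)) ≤ (1 + 1 / (n : ℝ)) ^ (-δ) := by
    have hx : 0 < 1 + 1 / (n : ℝ) := by positivity
    rw [Real.rpow_def_of_pos hx]
    have h3 : Real.log (1 + 1 / (n : ℝ)) ≤ 1 / (n : ℝ) := by
      have := Real.log_le_sub_one_of_pos hx
      linarith
    have h4 := Real.add_one_le_exp (Real.log (1 + 1 / (n : ℝ)) * -δ)
    have h5 : δ * Real.log (1 + 1 / (n : ℝ)) ≤ δ * (1 / (n : ℝ)) := mul_le_mul_of_nonneg_left h3 hδ.le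
    linarith
  have h6 : (n : ℝ) ^ (-δ - 1) = (n : ℝ) ^ (-δ) * (1 / (n : ℝ)) := by
    rw [Real.rpow_sub_one hn0.ne']
    ring
  rw [h1, h6]
  have h7 : 0 < (n : ℝ) ^ (-δ) := by positivity
  nlinarith

/-- the majorant is summable -/
lemma summ {δ η : ℝ} (hδ : 0 < δ) (hη : 0 < η) (hηδ : η < δ) :
    Summable fun n : ℕ => (V δ n - V δ (n + 1)) * ((n : ℝ) + 1) ^ η := by
  have hs : Summable fun n : ℕ => δ * 2 ^ η * (n : ℝ) ^ (-(1 + δ - η)) := by
    apply Summable.mul_left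
    exact Real.summable_nat_rpow.2 (by linarith)
  refine Summable.of_nonneg_of_le (fun n => ?_) (fun n => ?_) hs
  · have := sub_nonneg.2 (V_anti hδ (Nat.le_succ n))
    have h2 : (0 : ℝ) ≤ ((n : ℝ) + 1) ^ η := by positivity
    exact mul_nonneg this h2
  · rcases Nat.eq_zero_or_pos n with h0 | hn
    · subst h0
      have : V δ 0 - V δ (0 + 1) = 0 := by simp [V]
      rw [this, zero_mul]
      positivity
    · have hn0 : (0 : ℝ) < n := by exact_mod_cast hn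
      have hn1 : (1 : ℝ) ≤ n := by exact_mod_cast hn
      have h1 := diff_le hδ n hn
      have h2 : ((n : ℝ) + 1) ^ η ≤ 2 ^ η * (n : ℝ) ^ η := by
        rw [← Real.mul_rpow (by norm_num) hn0.le]
        exact Real.rpow_le_rpow (by positivity) (by linarith) hη.le
      have h3 : (n : ℝ) ^ (-(1 + δ - η)) = (n : ℝ) ^ (-δ - 1) * (n : ℝ) ^ η := by
        rw [← Real.rpow_add hn0]
        congr 1
        ring
      rw [h3]
      calc (V δ n - V δ (n + 1)) * ((n : ℝ) + 1) ^ η ≤ (δ * (n : ℝ) ^ (-δ - 1)) * (2 ^ η * (n : ℝ) ^ η) := by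
            gcongr
        _ = δ * 2 ^ η * ((n : ℝ) ^ (-δ - 1) * (n : ℝ) ^ η) := by ring

lemma abel (s a : ℕ → ℂ) (W : ℕ → ℝ) (h0 : s 0 = 0) (h0' : a 0 = 0)
    (h : ∀ n, a (n + 1) - a n = W (n + 1) * (s (n + 1) - s n)) (N : ℕ) :
    a N = W N * s N + ∑ n ∈ Finset.range N, ((W n - W (n + 1) : ℝ) : ℂ) * s n := by
  induction N with
  | zero => simp [h0, h0']
  | succ N ih =>
    rw [Finset.sum_range_succ]
    push_cast
    push_cast at ih
    linear_combination h N + ih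

/-- abstract convergence statement -/
lemma conv {δ η : ℝ} (hδ : 0 < δ) (hη : 0 < η) (hηδ : η < δ) (s a : ℕ → ℂ) (h0 : s 0 = 0) (h0' : a 0 = 0)
    (h : ∀ n, a (n + 1) - a n = V δ (n + 1) * (s (n + 1) - s n)) (K : ℝ) (hK : 0 ≤ K)
    (hs : ∀ n, ‖s n‖ ≤ K * ((n : ℝ) + 1) ^ η) :
    ∃ L : ℂ, Tendsto a atTop (𝓝 L) ∧ ‖L‖ ≤ K * ∑' n : ℕ, (V δ n - V δ (n + 1)) * ((n : ℝ) + 1) ^ η := by
  set f : ℕ → ℂ := fun n => ((V δ n - V δ (n + 1) : ℝ) : ℂ) * s n with hf
  have hfn : ∀ n, ‖f n‖ ≤ K * ((V δ n - V δ (n + 1)) * ((n : ℝ) + 1) ^ η) := by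
    intro n
    have h4 := sub_nonneg.2 (V_anti hδ (Nat.le_succ n))
    rw [hf]
    simp only
    rw [norm_mul, Complex.norm_real, Real.norm_of_nonneg h4]
    calc (V δ n - V δ (n + 1)) * ‖s n‖ ≤ (V δ n - V δ (n + 1)) * (K * ((n : ℝ) + 1) ^ η) :=
          mul_le_mul_of_nonneg_left (hs n) h4
      _ = _ := by ring
  have hsum := summ hδ hη hηδ
  have hsf : Summable f := Summable.of_norm_bounded (hsum.mul_left K) hfn
  refine ⟨∑' n, f n, ?_, ?_⟩
  · have h1 : Tendsto (fun N : ℕ => (V δ N : ℂ) * s N) atTop (𝓝 0) := by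
      rw [tendsto_zero_iff_norm_tendsto_zero]
      have hlim : Tendsto (fun N : ℕ => K * 2 ^ η * (N : ℝ) ^ (-(δ - η))) atTop (𝓝 0) := by
        have := (tendsto_rpow_neg_atTop (y := δ - η) (by linarith)).comp tendsto_natCast_atTop_atTop
        have h2 := this.const_mul (K * 2 ^ η)
        simpa using h2
      refine squeeze_zero' (Eventually.of_forall fun N => norm_nonneg _) ?_ hlim
      filter_upwards [eventually_ge_atTop 1] with N hN
      have hN0 : (0 : ℝ) < N := by exact_mod_cast hN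
      have hN1 : (1 : ℝ) ≤ N := by exact_mod_cast hN
      rw [norm_mul, Complex.norm_real, Real.norm_of_nonneg (V_pos δ N).le]
      have e1 : V δ N = (N : ℝ) ^ (-δ) := by unfold V; rw [max_eq_left hN]
      have h2 : ((N : ℝ) + 1) ^ η ≤ 2 ^ η * (N : ℝ) ^ η := by
        rw [← Real.mul_rpow (by norm_num) hN0.le]
        exact Real.rpow_le_rpow (by positivity) (by linarith) hη.le
      have h3 : (N : ℝ) ^ (-(δ - η)) = (N : ℝ) ^ (-δ) * (N : ℝ) ^ η := by
        rw [← Real.rpow_add hN0]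
        congr 1
        ring
      rw [e1, h3]
      calc (N : ℝ) ^ (-δ) * ‖s N‖ ≤ (N : ℝ) ^ (-δ) * (K * (2 ^ η * (N : ℝ) ^ η)) := by
            refine mul_le_mul_of_nonneg_left ((hs N).trans ?_) (by positivity)
            gcongr
        _ = K * 2 ^ η * ((N : ℝ) ^ (-δ) * (N : ℝ) ^ η) := by ring
    have h2 := h1.add hsf.hasSum.tendsto_sum_nat
    rw [zero_add] at h2
    refine h2.congr fun N => ?_
    rw [abel s a (V δ) h0 h0' h N]
  · rw [← tsum_mul_left]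
    exact (norm_tsum_le_tsum_norm (hsf.norm)).trans
      (Summable.tsum_le_tsum hfn hsf.norm (hsum.mul_left K))

end LS

/-- Convergence of the L-series on `Re s = 1/2 + δ` and the Lindelöf bound there. -/
def S_LS (F : Type) [Field F] [NumberField F] : Prop :=
  ∀ (ι : Type) (g : ι → Ideal (𝓞 F) → ℂ) (cd : ι → ℕ), Fam F ι g cd → (∀ i, 1 ≤ cd i) →
  ∀ (μ : Ideal (𝓞 F) → Measure ℝ), AdmI F μ → ∀ᵐ x ∂(Measure.infinitePi μ), ∀ δ β : ℝ, 0 < δ → 0 < β → ∃ C : ℝ,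
  ∀ (i : ι) (t : ℝ), ∃ L : ℂ,
    Tendsto (fun N : ℕ => ∑ I ∈ ball F N, (lamI F x I : ℂ) * g i I *
      ((Ideal.absNorm I : ℕ) : ℂ) ^ (-((1 / 2 + δ : ℝ) : ℂ) - t * Complex.I)) atTop (𝓝 L) ∧
    ‖L‖ ≤ C * ((cd i : ℝ) * (1 + |t|)) ^ β

theorem pLS (F : Type) [Field F] [NumberField F] (hFIN : S_FIN F) : S_LS F := by
  intro ι g cd hfam hcd μ hμ
  filter_upwards [hFIN ι g cd hfam μ hμ] with x hx
  obtain ⟨C, hC⟩ := hx
  intro δ β hδ hβ
  set η : ℝ := min β (δ / 2) with hη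
  have hη0 : 0 < η := lt_min hβ (by linarith)
  have hηδ : η < δ := lt_of_le_of_lt (min_le_right _ _) (by linarith)
  have hηβ : η ≤ β := min_le_left _ _
  obtain ⟨K, hK⟩ := LIN.sqrt_llog (C := C) (β := η) hη0
  set K1 : ℝ := Real.exp K * 3 ^ η with hK1
  set T : ℝ := ∑' n : ℕ, (LS.V δ n - LS.V δ (n + 1)) * ((n : ℝ) + 1) ^ η with hT
  have hT0 : 0 ≤ T := tsum_nonneg fun n => mul_nonneg (sub_nonneg.2 (LS.V_anti hδ (Nat.le_succ n))) (by positivity)
  refine ⟨K1 * T, ?_⟩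
  intro i t
  have hq1 : (1 : ℝ) ≤ cd i := by exact_mod_cast hcd i
  have ht0 : 0 ≤ |t| := abs_nonneg t
  set y : ℝ := (cd i : ℝ) * (1 + |t|) with hy
  have hy1 : 1 ≤ y := by rw [hy]; nlinarith
  have hs : ∀ n : ℕ, ‖SI F x (g i) n t‖ ≤ (K1 * y ^ η) * ((n : ℝ) + 1) ^ η := by
    intro n
    have hn0 : (0 : ℝ) ≤ n := Nat.cast_nonneg n
    set Q : ℝ := 3 * y * ((n : ℝ) + 1) with hQ
    have h3Q : 3 ≤ Q := by rw [hQ]; nlinarith
    have hcQ : (cd i : ℝ) ≤ Q := by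
      have : (cd i : ℝ) ≤ y := by rw [hy]; nlinarith
      rw [hQ]; nlinarith
    have hnQ : (n : ℝ) ≤ Q := by rw [hQ]; nlinarith
    have htQ : |t| ≤ Q := by
      have : |t| ≤ y := by rw [hy]; nlinarith
      rw [hQ]; nlinarith
    have hlog1 : 1 ≤ Real.log Q := by
      have h1 : Real.log 3 ≤ Real.log Q := Real.log_le_log (by norm_num) h3Q
      have h2 : 1 ≤ Real.log 3 := by
        rw [Real.le_log_iff_exp_le (by norm_num)]
        have := Real.exp_one_lt_d9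
        linarith
      linarith
    have hQ0 : 0 < Q := by linarith
    refine (hC Q i n t h3Q hcQ hnQ htQ).trans ?_
    calc Real.exp (C * Real.sqrt (Real.log Q * Real.log (Real.log Q))) ≤ Real.exp (η * Real.log Q + K) :=
          Real.exp_le_exp.2 (hK (Real.log Q) hlog1)
      _ = Real.exp K * Q ^ η := by
          rw [Real.exp_add, Real.rpow_def_of_pos hQ0, mul_comm, mul_comm η]
      _ = (K1 * y ^ η) * ((n : ℝ) + 1) ^ η := by
          rw [hQ, Real.mul_rpow (by positivity) (by positivity), Real.mul_rpow (by norm_num) (by positivity), hK1]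
          ring
  have hdiff : ∀ n : ℕ, SV F x (g i) (LS.V δ) (n + 1) t - SV F x (g i) (LS.V δ) n t =
      LS.V δ (n + 1) * (SI F x (g i) (n + 1) t - SI F x (g i) n t) := by
    intro n
    simp only [SI, SV]
    rw [CHI.sum_succ, CHI.sum_succ, Finset.mul_sum]
    refine Finset.sum_congr rfl fun I hI => ?_
    rw [(Finset.mem_filter.1 hI).2]
    ring
  obtain ⟨L, hL, hLn⟩ := LS.conv hδ hη0 hηδ (fun n => SI F x (g i) n t) (fun n => SV F x (g i) (LS.V δ) n t)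
    (by simp [SI, CHI.ball_zero]) (by simp [SV, CHI.ball_zero]) hdiff (K1 * y ^ η) (by positivity) hs
  refine ⟨L, ?_, ?_⟩
  · refine hL.congr fun N => ?_
    unfold SV
    refine Finset.sum_congr rfl fun I hI => ?_
    have hI0 : I ≠ ⊥ := ((mem_ball F N I).1 hI).1
    set n : ℕ := Ideal.absNorm I with hn
    have hn1 : 1 ≤ n := Nat.pos_of_ne_zero (by rwa [hn, Ne, Ideal.absNorm_eq_zero_iff])
    have hnc : (n : ℂ) ≠ 0 := by exact_mod_cast (by omega : n ≠ 0)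
    have e1 : LS.V δ n = (n : ℝ) ^ (-δ) := by unfold LS.V; rw [max_eq_left hn1]
    rw [e1, mul_assoc ((lamI F x I : ℂ) * g i I)]
    congr 1
    rw [Complex.ofReal_cpow (by positivity), Complex.ofReal_natCast, ← Complex.cpow_add _ _ hnc]
    congr 1
    push_cast
    ring
  · refine hLn.trans ?_
    have h1 : y ^ η ≤ y ^ β := Real.rpow_le_rpow_of_exponent_le hy1 hηβ
    have h2 : 0 ≤ K1 := by positivity
    calc K1 * y ^ η * T ≤ K1 * y ^ β * T := by gcongr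
      _ = K1 * T * y ^ β := by ring

end Pool.Agent.T2H95.LF
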