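import Pool.Agent.T2H95.LF.Stm

set_option autoImplicit false

open MeasureTheory Filter Topology Finset

namespace Pool.Agent.T2H95.LF

theorem pOPT : S_OPT := by
  intro C a hC
  refine ⟨259 + a, by positivity, ?_⟩
  have h1 : ∀ᶠ Q : ℕ in atTop, max (3 : ℝ) C ≤ Real.log Q :=
    (Real.tendsto_log_atTop.comp tendsto_natCast_atTop_atTop).eventually_ge_atTop (max 3 C)
  filter_upwards [h1, eventually_ge_atTop 1] with Q hL' hQ1
  have hL : (3 : ℝ) ≤ Real.log Q := (le_max_left _ _).trans hL'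
  have hCL : C ≤ Real.log Q := (le_max_right _ _).trans hL'
  set L := Real.log Q with hLd
  set l := Real.log L with hld
  have hQpos : (0 : ℝ) < Q := by exact_mod_cast hQ1
  have hL0 : 0 < L := by linarith
  have hl1 : 1 ≤ l := by
    rw [hld, Real.le_log_iff_exp_le (by linarith)]
    have := Real.exp_one_lt_d9
    linarith
  have hlL : l ≤ L := (Real.log_le_sub_one_of_pos (by linarith)).trans (by linarith)
  set s := Real.sqrt (L / l) with hs
  have hs1 : 1 ≤ s := by
    rw [hs, Real.one_le_sqrt, le_div_iff₀ (by linarith)]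
    linarith
  have hs2 : s ^ 2 = L / l := Real.sq_sqrt (by positivity)
  have hsL : s ≤ L := by
    have h2 : s ≤ s ^ 2 := by nlinarith
    have h3 : L / l ≤ L := div_le_self (by linarith) hl1
    linarith
  refine ⟨⌈s⌉₊, Nat.one_le_ceil_iff.2 (by linarith), ?_⟩
  set k := ⌈s⌉₊ with hk
  have hk1 : s ≤ k := Nat.le_ceil s
  have hk2 : (k : ℝ) ≤ 2 * s := by
    have := (Nat.ceil_lt_add_one (by linarith : 0 ≤ s)).le
    linarith
  have hk0 : (0 : ℝ) ≤ k := by linarith
  have hkL : 1 + k * L ≤ L ^ 3 := by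
    have h4 : (k : ℝ) * L ≤ 2 * L * L := by
      apply mul_le_mul_of_nonneg_right _ hL0.le
      linarith
    nlinarith [mul_nonneg hL0.le hL0.le]
  have hkL4 : C * (1 + k * L) ≤ L ^ 4 := by
    calc C * (1 + k * L) ≤ L * L ^ 3 := by
          apply mul_le_mul hCL hkL (by positivity) hL0.le
      _ = L ^ 4 := by ring
  have hkl : (k : ℝ) ^ 2 * l ≤ 4 * L := by
    have h5 : (k : ℝ) ^ 2 ≤ 4 * s ^ 2 := by nlinarith
    calc (k : ℝ) ^ 2 * l ≤ 4 * s ^ 2 * l := by gcongr
      _ = 4 * L := by rw [hs2]; field_simp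
  have hsq : s * Real.sqrt (L * l) = L := by
    rw [hs, ← Real.sqrt_mul (by positivity)]
    rw [show L / l * (L * l) = L ^ 2 by field_simp]
    exact Real.sqrt_sq hL0.le
  have hkq : L ≤ k * Real.sqrt (L * l) := by
    calc L = s * Real.sqrt (L * l) := hsq.symm
      _ ≤ k * Real.sqrt (L * l) := by gcongr
  have e1 : (Q : ℝ) = Real.exp L := (Real.exp_log hQpos).symm
  have e2 : L = Real.exp l := (Real.exp_log hL0).symm
  have hC0 : 0 ≤ C := by linarith
  have h6 : (C * (1 + k * L)) ^ (16 * k ^ 2) ≤ Real.exp (256 * L) := by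
    calc (C * (1 + k * L)) ^ (16 * k ^ 2) ≤ (L ^ 4) ^ (16 * k ^ 2) := by
          apply pow_le_pow_left₀ (by positivity) hkL4
      _ = Real.exp l ^ (64 * k ^ 2) := by
          rw [← e2, ← pow_mul]
          congr 1
          ring
      _ = Real.exp (((64 * k ^ 2 : ℕ) : ℝ) * l) := (Real.exp_nat_mul l _).symm
      _ ≤ Real.exp (256 * L) := by
          apply Real.exp_le_exp.2
          push_cast
          linarith
  have h7 : (Q : ℝ) ^ a = Real.exp (a * L) := by
    rw [e1, ← Real.exp_nat_mul]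
  have h8 : 1 / (Q : ℝ) ^ 2 = Real.exp (-(2 * L)) := by
    rw [e1, ← Real.exp_nat_mul, Real.exp_neg, one_div]
    norm_num
  have h9 : C ≤ Real.exp L := hCL.trans ((Real.add_one_le_exp L).trans' (by linarith))
  rw [h7, h8, ← Real.exp_nat_mul, ← Real.exp_add]
  calc C * Real.exp (a * L) * (C * (1 + k * L)) ^ (16 * k ^ 2)
      ≤ Real.exp L * Real.exp (a * L) * Real.exp (256 * L) := by gcongr
    _ = Real.exp (L + a * L + 256 * L) := by rw [Real.exp_add, Real.exp_add]
    _ ≤ _ := by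
      apply Real.exp_le_exp.2
      push_cast
      have ha : (0 : ℝ) ≤ a := Nat.cast_nonneg a
      have h10 : (259 + (a : ℝ)) * L ≤ (259 + a) * (k * Real.sqrt (L * l)) := by gcongr
      nlinarith

end Pool.Agent.T2H95.LF
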