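import Pool.Agent.T2H95.LF.Stm

/-!
# Project LF: HARM, the number of ideals and the harmonic sum over the ideals
-/

set_option autoImplicit false

open MeasureTheory Filter Topology Finset NumberField

namespace Pool.Agent.T2H95.LF

namespace HARM

variable (F : Type) [Field F] [NumberField F]

lemma ball_mono {N N' : ℕ} (h : N ≤ N') : ball F N ⊆ ball F N' := by
  intro I hI
  rw [mem_ball] at hI ⊢
  exact ⟨hI.1, hI.2.trans h⟩

lemma card_ball_le (N : ℕ) :
    (ball F N).card ≤ Nat.card {I : Ideal (𝓞 F) // (Ideal.absNorm I : ℝ) ≤ (N : ℝ)} := by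
  classical
  have hfin : {I : Ideal (𝓞 F) | (Ideal.absNorm I : ℝ) ≤ (N : ℝ)}.Finite := by
    have h := Ideal.finite_setOfPred_absNorm_le (S := 𝓞 F) N
    refine h.subset fun I hI => ?_
    have h1 : (Ideal.absNorm I : ℝ) ≤ (N : ℝ) := hI
    have h2 : Ideal.absNorm I ≤ N := by exact_mod_cast h1
    exact h2
  have : Finite {I : Ideal (𝓞 F) // (Ideal.absNorm I : ℝ) ≤ (N : ℝ)} := hfin
  have := Fintype.ofFinite {I : Ideal (𝓞 F) // (Ideal.absNorm I : ℝ) ≤ (N : ℝ)}
  rw [Nat.card_eq_fintype_card, ← Finset.card_univ, ← Finset.card_attach (s := ball F N)]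
  refine Finset.card_le_card_of_injOn (fun I => ⟨I.1, ?_⟩) (fun _ _ => Finset.mem_coe.2
    (Finset.mem_univ _)) ?_
  · have := ((mem_ball F N I.1).1 I.2).2
    exact_mod_cast this
  · intro I _ I' _ h
    have h2 : (I.1 : Ideal (𝓞 F)) = I'.1 := by simpa using h
    exact Subtype.ext h2

lemma card_ball : ∃ C : ℝ, 1 ≤ C ∧ ∀ N : ℕ, 1 ≤ N → ((ball F N).card : ℝ) ≤ C * N := by
  have h1 := (NumberField.Ideal.tendsto_norm_le_div_atTop F).comp
    (tendsto_natCast_atTop_atTop (R := ℝ))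
  obtain ⟨L, hL⟩ : ∃ L : ℝ, Tendsto ((fun s : ℝ =>
      (Nat.card {I : Ideal (𝓞 F) // (Ideal.absNorm I : ℝ) ≤ s} : ℝ) / s) ∘ fun n : ℕ => (n : ℝ))
      atTop (𝓝 L) := ⟨_, h1⟩
  obtain ⟨N₀, hN₀⟩ := eventually_atTop.1 (hL.eventually (eventually_lt_nhds (lt_add_one L)))
  refine ⟨max (max (L + 1) (ball F N₀).card) 1, le_max_right _ _, fun N hN => ?_⟩
  have hNr : (1 : ℝ) ≤ N := by exact_mod_cast hN
  rcases le_or_gt N₀ N with h | h
  · have h2 := hN₀ N h
    simp only [Function.comp_apply] at h2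
    rw [div_lt_iff₀ (by linarith)] at h2
    have h3 : ((ball F N).card : ℝ) ≤
        Nat.card {I : Ideal (𝓞 F) // (Ideal.absNorm I : ℝ) ≤ (N : ℝ)} := by
      exact_mod_cast card_ball_le F N
    refine h3.trans (h2.le.trans ?_)
    exact mul_le_mul_of_nonneg_right ((le_max_left _ _).trans (le_max_left _ _)) (by linarith)
  · have h2 : ((ball F N).card : ℝ) ≤ (ball F N₀).card := by
      exact_mod_cast Finset.card_le_card (ball_mono F h.le)
    have h3 : ((ball F N₀).card : ℝ) ≤ max (max (L + 1) (ball F N₀).card) 1 :=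
      (le_max_right _ _).trans (le_max_left _ _)
    have h4 : (0 : ℝ) ≤ max (max (L + 1) (ball F N₀).card) 1 :=
      zero_le_one.trans (le_max_right _ _)
    calc ((ball F N).card : ℝ) ≤ max (max (L + 1) (ball F N₀).card) 1 * 1 := by
          rw [mul_one]
          exact h2.trans h3
      _ ≤ _ := mul_le_mul_of_nonneg_left hNr h4

lemma absNorm_pos {I : Ideal (𝓞 F)} (h : I ≠ ⊥) : 1 ≤ Ideal.absNorm I :=
  Nat.one_le_iff_ne_zero.2 fun h0 => h (Ideal.absNorm_eq_zero_iff.1 h0)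

lemma HI_le {C : ℝ} (hC : ∀ N : ℕ, 1 ≤ N → ((ball F N).card : ℝ) ≤ C * N) (M : ℕ) :
    HI F (M + 1) ≤ ((ball F (M + 1)).card : ℝ) / ((M + 1 : ℕ) : ℝ) +
      C * ((harmonic (M + 1) : ℚ) - 1 : ℝ) := by
  classical
  induction M with
  | zero =>
    have h1 : HI F (0 + 1) = (ball F (0 + 1)).card := by
      unfold HI
      rw [Finset.card_eq_sum_ones, Nat.cast_sum]
      refine Finset.sum_congr rfl fun I hI => ?_
      obtain ⟨h1, h2⟩ := (mem_ball F _ I).1 hI
      have h3 := absNorm_pos F h1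
      have h4 : Ideal.absNorm I = 1 := by omega
      rw [h4]
      norm_num
    rw [h1]
    simp
  | succ M ih =>
    have hsub : ball F (M + 1) ⊆ ball F (M + 1 + 1) := ball_mono F (Nat.le_succ _)
    have h1 : HI F (M + 1 + 1) = HI F (M + 1) +
        (((ball F (M + 1 + 1)).card : ℝ) - (ball F (M + 1)).card) / ((M + 1 + 1 : ℕ) : ℝ) := by
      unfold HI
      rw [← Finset.sum_sdiff hsub, add_comm]
      congr 1
      have h2 : ∑ I ∈ ball F (M + 1 + 1) \ ball F (M + 1), 1 / ((Ideal.absNorm I : ℕ) : ℝ) =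
          ∑ _I ∈ ball F (M + 1 + 1) \ ball F (M + 1), 1 / ((M + 1 + 1 : ℕ) : ℝ) := by
        refine Finset.sum_congr rfl fun I hI => ?_
        obtain ⟨h3, h4⟩ := Finset.mem_sdiff.1 hI
        rw [mem_ball] at h3 h4
        have h5 : Ideal.absNorm I = M + 1 + 1 := by
          have : ¬ Ideal.absNorm I ≤ M + 1 := fun h => h4 ⟨h3.1, h⟩
          have := h3.2
          omega
        rw [h5]
      rw [h2, Finset.sum_const, nsmul_eq_mul, Finset.card_sdiff_of_subset hsub,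
        Nat.cast_sub (Finset.card_le_card hsub)]
      ring
    have h2 := hC (M + 1) (by omega)
    rw [h1, harmonic_succ (M + 1)]
    push_cast at ih h2 ⊢
    have hM : (0 : ℝ) < (M : ℝ) + 1 := by positivity
    have hM' : (0 : ℝ) < (M : ℝ) + 1 + 1 := by positivity
    have h3 : ((ball F (M + 1)).card : ℝ) / ((M : ℝ) + 1) -
        ((ball F (M + 1)).card : ℝ) / ((M : ℝ) + 1 + 1) ≤ C * ((M : ℝ) + 1 + 1)⁻¹ := by
      have h4 : ((ball F (M + 1)).card : ℝ) / ((M : ℝ) + 1) -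
          ((ball F (M + 1)).card : ℝ) / ((M : ℝ) + 1 + 1) =
          ((ball F (M + 1)).card : ℝ) / (((M : ℝ) + 1) * ((M : ℝ) + 1 + 1)) := by
        field_simp
        ring
      have h5 : C * ((M : ℝ) + 1 + 1)⁻¹ = C * ((M : ℝ) + 1) / (((M : ℝ) + 1) * ((M : ℝ) + 1 + 1)) := by
        field_simp
      rw [h4, h5]
      exact div_le_div_of_nonneg_right h2 (by positivity)
    rw [sub_div]
    have h6 : C * ((harmonic (M + 1) : ℝ) + ((M : ℝ) + 1 + 1)⁻¹ - 1) =
        C * ((harmonic (M + 1) : ℝ) - 1) + C * ((M : ℝ) + 1 + 1)⁻¹ := by ring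
    rw [h6]
    linarith

end HARM

theorem pHARM (F : Type) [Field F] [NumberField F] : S_HARM F := by
  obtain ⟨C, hC1, hC⟩ := HARM.card_ball F
  refine ⟨C, hC1, hC, fun M hM => ?_⟩
  obtain ⟨M', rfl⟩ : ∃ M', M = M' + 1 := ⟨M - 1, by omega⟩
  have h1 := HARM.HI_le F hC M'
  have h2 := hC (M' + 1) (by omega)
  have h3 : ((ball F (M' + 1)).card : ℝ) / ((M' + 1 : ℕ) : ℝ) ≤ C := by
    rw [div_le_iff₀ (by positivity)]
    exact h2
  have h4 := harmonic_le_one_add_log (M' + 1)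
  calc HI F (M' + 1) ≤ C + C * ((harmonic (M' + 1) : ℚ) - 1 : ℝ) := by linarith
    _ = C * ((harmonic (M' + 1) : ℚ) : ℝ) := by ring
    _ ≤ C * (1 + Real.log ((M' + 1 : ℕ) : ℝ)) := mul_le_mul_of_nonneg_left h4 (by linarith)

end Pool.Agent.T2H95.LF
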