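import Pool.Agent.T2H95.LF.Stm

/-! Project LF, package QF. -/

set_option autoImplicit false

open MeasureTheory Filter Topology Finset NumberField UniqueFactorizationMonoid
open Pool.Agent.T2H95.LR (he S_HE)

namespace Pool.Agent.T2H95.LF

namespace QF

/-- the units modulo squares are finite -/
theorem unit_reps (F : Type) [Field F] [NumberField F] :
    ∃ (k : ℕ) (rep : (Fin k → Bool) → (𝓞 F)ˣ), ∀ u : (𝓞 F)ˣ, ∃ (e : Fin k → Bool) (w : (𝓞 F)ˣ), u = w ^ 2 * rep e := by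
  obtain ⟨k, s, hs⟩ := Module.Finite.exists_fin (R := ℤ) (M := Additive (𝓞 F)ˣ)
  refine ⟨k, fun e => Additive.toMul (∑ i, (if e i then (1 : ℤ) else 0) • s i), fun u => ?_⟩
  have hu : Additive.ofMul u ∈ Submodule.span ℤ (Set.range s) := by
    rw [hs]
    exact Submodule.mem_top
  obtain ⟨c, hc⟩ := (Submodule.mem_span_range_iff_exists_fun ℤ).mp hu
  refine ⟨fun i => decide (c i % 2 = 1), Additive.toMul (∑ i, (c i / 2) • s i), ?_⟩
  apply Additive.ofMul.injective
  rw [← hc, ofMul_mul, ofMul_pow, ofMul_toMul, ofMul_toMul, two_nsmul, ← Finset.sum_add_distrib,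
    ← Finset.sum_add_distrib]
  refine Finset.sum_congr rfl fun i _ => ?_
  have h1 : c i = 2 * (c i / 2) + c i % 2 := by omega
  have h2 : (if decide (c i % 2 = 1) = true then (1 : ℤ) else 0) = c i % 2 := by
    rcases Int.emod_two_eq_zero_or_one (c i) with h | h
    · rw [h]; simp
    · rw [h]; simp
  show c i • s i = (c i / 2) • s i + (c i / 2) • s i + (if decide (c i % 2 = 1) = true then (1 : ℤ) else 0) • s i
  rw [h2]
  conv_lhs => rw [h1]
  rw [add_zsmul, two_mul, add_zsmul]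

end QF

theorem pQF (F : Type) [Field F] [NumberField F] (hHARM : S_HARM F) : S_QF F := by
  classical
  intro χ hχ hsq
  refine ⟨fun D I => hχ _ _, ?_⟩
  obtain ⟨C, hC1, hC, -⟩ := hHARM
  obtain ⟨k, rep, hrep⟩ := QF.unit_reps F
  set gen : Ideal (𝓞 F) → 𝓞 F := fun J => if h : ∃ d, Ideal.span {d} = J then h.choose else 0 with hgen
  have hgen' : ∀ D : 𝓞 F, Ideal.span {gen (Ideal.span {D})} = Ideal.span {D} := by
    intro D
    have h : ∃ d, Ideal.span {d} = Ideal.span {D} := ⟨D, rfl⟩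
    rw [hgen]
    simp only [h, dif_pos]
    exact h.choose_spec
  refine ⟨⌈C⌉₊ * 2 ^ k, 1, fun Q => ?_⟩
  have hsub : (fun D : {D : 𝓞 F // D ≠ 0} => χ D.1) '' {D | Ideal.absNorm (Ideal.span {D.1}) ≤ Q} ⊆
      (fun q : Ideal (𝓞 F) × (Fin k → Bool) => χ ((rep q.2 : 𝓞 F) * gen q.1)) ''
        (((ball F Q) ×ˢ (Finset.univ : Finset (Fin k → Bool)) : Finset (Ideal (𝓞 F) × (Fin k → Bool))) : Set _) := by
    rintro _ ⟨⟨D, hD⟩, hDQ, rfl⟩
    have hDQ' : Ideal.absNorm (Ideal.span {D}) ≤ Q := hDQ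
    have hass := Ideal.span_singleton_eq_span_singleton.mp (hgen' D)
    obtain ⟨u, hu⟩ := hass
    obtain ⟨e, w, hew⟩ := hrep u
    refine ⟨(Ideal.span {D}, e), ?_, ?_⟩
    · rw [Finset.mem_coe, Finset.mem_product]
      refine ⟨?_, Finset.mem_univ _⟩
      rw [mem_ball]
      refine ⟨?_, hDQ'⟩
      intro h0
      exact hD (Ideal.span_singleton_eq_bot.mp h0)
    · show χ ((rep e : 𝓞 F) * gen (Ideal.span {D})) = χ D
      rw [← hsq w]
      congr 1
      have hcalc : gen (Ideal.span {D}) * ((w ^ 2 * rep e : (𝓞 F)ˣ) : 𝓞 F) = D := by rw [← hew]; exact hu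
      refine Eq.trans ?_ hcalc
      push_cast
      ring
  have hfin : ((fun q : Ideal (𝓞 F) × (Fin k → Bool) => χ ((rep q.2 : 𝓞 F) * gen q.1)) ''
        (((ball F Q) ×ˢ (Finset.univ : Finset (Fin k → Bool)) : Finset (Ideal (𝓞 F) × (Fin k → Bool))) : Set _)).Finite :=
    (Finset.finite_toSet _).image _
  refine ⟨hfin.subset hsub, ?_⟩
  rcases Nat.eq_zero_or_pos Q with h0 | hQ
  · subst h0
    have hempty : {D : {D : 𝓞 F // D ≠ 0} | Ideal.absNorm (Ideal.span {D.1}) ≤ 0} = ∅ := by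
      ext D
      simp only [Set.mem_ofPred_eq, Set.mem_empty_iff_false, iff_false, not_le]
      apply Nat.pos_of_ne_zero
      intro h
      rw [Ideal.absNorm_eq_zero_iff] at h
      exact D.2 (Ideal.span_singleton_eq_bot.mp h)
    rw [hempty, Set.image_empty, Set.ncard_empty]
    exact Nat.zero_le _
  · have h1 := Set.ncard_le_ncard hsub hfin
    have h2 : ((fun q : Ideal (𝓞 F) × (Fin k → Bool) => χ ((rep q.2 : 𝓞 F) * gen q.1)) ''
        (((ball F Q) ×ˢ (Finset.univ : Finset (Fin k → Bool)) : Finset (Ideal (𝓞 F) × (Fin k → Bool))) : Set _)).ncard ≤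
        (ball F Q).card * 2 ^ k := by
      refine (Set.ncard_image_le (Finset.finite_toSet _)).trans ?_
      rw [Set.ncard_coe_finset, Finset.card_product, Finset.card_univ]
      simp
    have h3 : (ball F Q).card ≤ ⌈C⌉₊ * Q := by
      have := (hC Q hQ).trans (mul_le_mul_of_nonneg_right (Nat.le_ceil C) (Nat.cast_nonneg Q))
      exact_mod_cast this
    calc _ ≤ (ball F Q).card * 2 ^ k := h1.trans h2
      _ ≤ ⌈C⌉₊ * Q * 2 ^ k := Nat.mul_le_mul_right _ h3
      _ = ⌈C⌉₊ * 2 ^ k * Q ^ 1 := by ring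

end Pool.Agent.T2H95.LF
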