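import Pool.Agent.T2H95.LF.Stm

set_option autoImplicit false

open MeasureTheory Filter Topology Finset NumberField UniqueFactorizationMonoid

namespace Pool.Agent.T2H95.LF

namespace BC

variable (F : Type) [Field F] [NumberField F]

open scoped Classical in
/-- the weight `g(I) N(I)^{-it}` -/
noncomputable def gw (g : Ideal (𝓞 F) → ℂ) (t : ℝ) (I : Ideal (𝓞 F)) : ℂ :=
  if I = ⊥ then 0 else g I * ((Ideal.absNorm I : ℕ) : ℂ) ^ (-(t * Complex.I))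

lemma absNorm_pos {I : Ideal (𝓞 F)} (h : I ≠ ⊥) : 0 < Ideal.absNorm I :=
  Nat.pos_of_ne_zero (by rwa [Ne, Ideal.absNorm_eq_zero_iff])

lemma norm_gw (g : Ideal (𝓞 F) → ℂ) (hg : ∀ I, ‖g I‖ ≤ 1) (t : ℝ) (I : Ideal (𝓞 F)) : ‖gw F g t I‖ ≤ 1 := by
  unfold gw
  split_ifs with h
  · simp
  · rw [norm_mul]
    have h1 : ‖((Ideal.absNorm I : ℕ) : ℂ) ^ (-(t * Complex.I))‖ = 1 := by
      rw [Complex.norm_natCast_cpow_of_pos (absNorm_pos F h)]
      simp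
    rw [h1, mul_one]
    exact hg I

lemma S_eq_W (x : Ideal (𝓞 F) → ℝ) (g : Ideal (𝓞 F) → ℂ) (N : ℕ) (t : ℝ) :
    SI F x g N t = WI F x (gw F g t) N := by
  unfold SI WI
  refine Finset.sum_congr rfl fun I hI => ?_
  have hI0 : I ≠ ⊥ := ((mem_ball F N I).1 hI).1
  set n : ℕ := Ideal.absNorm I with hn
  have hn0 : n ≠ 0 := (absNorm_pos F hI0).ne'
  have hnc : (n : ℂ) ≠ 0 := by exact_mod_cast hn0
  have h1 : (n : ℂ) ^ (-(1 / 2 : ℂ) - t * Complex.I) =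
      ((1 / Real.sqrt n : ℝ) : ℂ) * (n : ℂ) ^ (-(t * Complex.I)) := by
    rw [sub_eq_add_neg, Complex.cpow_add _ _ hnc]
    congr 1
    have h2 : ((n : ℝ) ^ (-(1 / 2 : ℝ)) : ℝ) = 1 / Real.sqrt n := by
      rw [Real.rpow_neg (by positivity), Real.sqrt_eq_rpow]
      simp only [one_div]
    rw [← h2, Complex.ofReal_cpow (by positivity)]
    push_cast
    rfl
  rw [h1]
  unfold gw
  rw [if_neg hI0]
  ring

/-- Markov for one function, one `N`, one `t`. -/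
lemma markov (hEXP : S_EXP F) (hCNT : S_CNT F) (C : ℝ) (hC : 1 ≤ C)
    (hH : ∀ M : ℕ, 1 ≤ M → HI F M ≤ C * (1 + Real.log M))
    (μ : Ideal (𝓞 F) → Measure ℝ) (hμ : AdmI F μ) (g : Ideal (𝓞 F) → ℂ) (hg : ∀ I, ‖g I‖ ≤ 1)
    (N k Q : ℕ) (t V : ℝ) (hk : 1 ≤ k) (hN : N ≤ Q) (hQ : 1 ≤ Q) (hV : 0 < V) :
    Measure.infinitePi μ {x | V < ‖SI F x g N t‖} ≤
      ENNReal.ofReal ((C * (1 + k * Real.log Q)) ^ (16 * k ^ 2) / V ^ (2 * k)) := by
  have := hμ.prob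
  have hlogQ : 0 ≤ Real.log Q := Real.log_nonneg (by exact_mod_cast hQ)
  rcases Nat.eq_zero_or_pos N with h0 | hN1
  · subst h0
    have hb : ball F 0 = ∅ := by
      ext I
      rw [mem_ball]
      constructor
      · rintro ⟨h1, h2⟩
        have := absNorm_pos F h1
        omega
      · intro h
        simp at h
    have : {x : Ideal (𝓞 F) → ℝ | V < ‖SI F x g 0 t‖} = ∅ := by
      ext x
      simp [SI, hb, hV.le]
    rw [this]
    simp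
  · obtain ⟨hint, hle⟩ := hEXP μ hμ (gw F g t) (norm_gw F g hg t) k N hk
    have h1 := mul_meas_ge_le_integral_of_nonneg (μ := Measure.infinitePi μ)
      (f := fun x => ‖WI F x (gw F g t) N‖ ^ (2 * k)) (ae_of_all _ fun x => by positivity) hint (V ^ (2 * k))
    have hVk : 0 < V ^ (2 * k) := by positivity
    have hlN : 0 ≤ Real.log N := Real.log_nonneg (by exact_mod_cast hN1)
    have hlNQ : Real.log N ≤ Real.log Q :=
      Real.log_le_log (by exact_mod_cast hN1) (by exact_mod_cast hN)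
    have hHI0 : 0 ≤ HI F (N ^ k) := Finset.sum_nonneg fun I _ => by positivity
    have hHI : HI F (N ^ k) ≤ C * (1 + k * Real.log Q) := by
      refine (hH (N ^ k) (Nat.one_le_pow _ _ hN1)).trans ?_
      push_cast
      rw [Real.log_pow]
      gcongr
    have h2 : (Measure.infinitePi μ).real {x | V ^ (2 * k) ≤ ‖WI F x (gw F g t) N‖ ^ (2 * k)} ≤
        (C * (1 + k * Real.log Q)) ^ (16 * k ^ 2) / V ^ (2 * k) := by
      rw [le_div_iff₀ hVk, mul_comm]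
      refine h1.trans (hle.trans ((hCNT k N hk).trans ?_))
      gcongr
    have h3 : {x : Ideal (𝓞 F) → ℝ | V < ‖SI F x g N t‖} ⊆
        {x | V ^ (2 * k) ≤ ‖WI F x (gw F g t) N‖ ^ (2 * k)} := by
      intro x hx
      simp only [Set.mem_ofPred_eq] at hx ⊢
      rw [S_eq_W] at hx
      gcongr
    refine (measure_mono h3).trans ?_
    rw [← ofReal_measureReal (μ := Measure.infinitePi μ)]
    exact ENNReal.ofReal_le_ofReal h2

/-- the bad event -/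
def E {ι : Type} (g : ι → Ideal (𝓞 F) → ℂ) (cd : ι → ℕ) (V : ℝ) (Q : ℕ) : Set (Ideal (𝓞 F) → ℝ) :=
  {x | ∃ (i : ι) (N : ℕ) (j : ℤ), cd i ≤ Q ∧ N ≤ Q ∧ |j| ≤ (Q : ℤ) ^ 5 ∧
    V < ‖SI F x (g i) N ((j : ℝ) / (Q : ℝ) ^ 4)‖}

lemma E_sub {ι : Type} (g : ι → Ideal (𝓞 F) → ℂ) (cd : ι → ℕ) (V : ℝ) (Q : ℕ)
    (hfin : (g '' {i | cd i ≤ Q}).Finite) : E F g cd V Q ⊆
    ⋃ f ∈ hfin.toFinset, ⋃ N ∈ Finset.range (Q + 1),
      ⋃ j ∈ Icc (-(Q : ℤ) ^ 5) ((Q : ℤ) ^ 5), {x | V < ‖SI F x f N ((j : ℝ) / (Q : ℝ) ^ 4)‖} := by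
  rintro x ⟨i, N, j, hi, hN, hj, hx⟩
  simp only [Set.mem_iUnion]
  refine ⟨g i, ?_, N, Finset.mem_range.2 (by omega), j, ?_, hx⟩
  · rw [Set.Finite.mem_toFinset]
    exact ⟨i, hi, rfl⟩
  · rw [Finset.mem_Icc]
    exact abs_le.1 hj

lemma sum_bound {T : Type} (s : Finset T) (b : ENNReal) (A a Q : ℕ) (hQ : 3 ≤ Q) (hs : s.card ≤ A * Q ^ a) :
    (∑ _f ∈ s, ∑ _N ∈ Finset.range (Q + 1), ∑ _j ∈ Icc (-(Q : ℤ) ^ 5) ((Q : ℤ) ^ 5), b) ≤
      ((A * Q ^ (a + 8) : ℕ) : ENNReal) * b := by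
  simp only [Finset.sum_const, Finset.card_range, nsmul_eq_mul, Int.card_Icc]
  have h3 : ((Q : ℤ) ^ 5 + 1 - -(Q : ℤ) ^ 5).toNat = 2 * Q ^ 5 + 1 := by
    have : ((Q : ℤ) ^ 5 + 1 - -(Q : ℤ) ^ 5) = ((2 * Q ^ 5 + 1 : ℕ) : ℤ) := by push_cast; ring
    rw [this, Int.toNat_natCast]
  rw [h3]
  simp only [← mul_assoc, ← Nat.cast_mul]
  refine mul_le_mul' (Nat.cast_le.2 ?_) le_rfl
  have h5 : Q + 1 ≤ Q * Q := by nlinarith
  have h6 : 2 * Q ^ 5 + 1 ≤ Q ^ 6 := by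
    have : Q ^ 6 = Q * Q ^ 5 := by ring
    rw [this]
    have h7 : 1 ≤ Q ^ 5 := Nat.one_le_pow _ _ (by omega)
    nlinarith
  calc s.card * (Q + 1) * (2 * Q ^ 5 + 1) ≤ (A * Q ^ a) * (Q * Q) * Q ^ 6 := by gcongr
    _ = A * Q ^ (a + 8) := by ring

lemma meas_E (hEXP : S_EXP F) (hCNT : S_CNT F) (C : ℝ) (hC : 1 ≤ C)
    (hH : ∀ M : ℕ, 1 ≤ M → HI F M ≤ C * (1 + Real.log M))
    (μ : Ideal (𝓞 F) → Measure ℝ) (hμ : AdmI F μ) {ι : Type} (g : ι → Ideal (𝓞 F) → ℂ) (cd : ι → ℕ)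
    (hg : ∀ i I, ‖g i I‖ ≤ 1) (A a : ℕ)
    (hA : ∀ Q : ℕ, (g '' {i | cd i ≤ Q}).Finite ∧ (g '' {i | cd i ≤ Q}).ncard ≤ A * Q ^ a)
    (V : ℝ) (hV : 0 < V) (Q k : ℕ) (hQ : 3 ≤ Q) (hk : 1 ≤ k) :
    Measure.infinitePi μ (E F g cd V Q) ≤
      ENNReal.ofReal (A * (Q : ℝ) ^ (a + 8) * ((C * (1 + k * Real.log Q)) ^ (16 * k ^ 2) / V ^ (2 * k))) := by
  obtain ⟨hfin, hcard⟩ := hA Q
  refine (measure_mono (E_sub F g cd V Q hfin)).trans ?_
  have h1 : ENNReal.ofReal (A * (Q : ℝ) ^ (a + 8) * ((C * (1 + k * Real.log Q)) ^ (16 * k ^ 2) / V ^ (2 * k))) =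
      ((A * Q ^ (a + 8) : ℕ) : ENNReal) *
        ENNReal.ofReal ((C * (1 + k * Real.log Q)) ^ (16 * k ^ 2) / V ^ (2 * k)) := by
    rw [ENNReal.ofReal_mul (by positivity)]
    congr 1
    rw [← ENNReal.ofReal_natCast]
    congr 1
    push_cast
    rfl
  rw [h1]
  refine le_trans ?_ (sum_bound hfin.toFinset _ A a Q hQ ?_)
  · refine (measure_biUnion_finset_le _ _).trans (Finset.sum_le_sum fun f hf => ?_)
    refine (measure_biUnion_finset_le _ _).trans (Finset.sum_le_sum fun N hN => ?_)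
    refine (measure_biUnion_finset_le _ _).trans (Finset.sum_le_sum fun j _ => ?_)
    obtain ⟨i, _, rfl⟩ := (Set.Finite.mem_toFinset hfin).1 hf
    exact markov F hEXP hCNT C hC hH μ hμ (g i) (hg i) N k Q _ V hk
      (by have := Finset.mem_range.1 hN; omega) (by omega) hV
  · rwa [← Set.ncard_eq_toFinset_card _ hfin]

end BC

theorem pBC (F : Type) [Field F] [NumberField F] (hEXP : S_EXP F) (hCNT : S_CNT F) (hHARM : S_HARM F)
    (hOPT : S_OPT) : S_BC F := by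
  intro ι g cd hfam
  obtain ⟨C, hC, _, hH⟩ := hHARM
  obtain ⟨A, a, hA⟩ := hfam.cnt
  obtain ⟨C', hC', hopt⟩ := hOPT (max C A) (a + 8) (le_trans hC (le_max_left _ _))
  refine ⟨C', hC', ?_⟩
  intro μ hμ
  obtain ⟨Q0, hQ0⟩ := Filter.eventually_atTop.1 hopt
  set V : ℕ → ℝ := fun Q => Real.exp (C' * Real.sqrt (Real.log Q * Real.log (Real.log Q))) with hV
  set Q1 : ℕ := max Q0 3 with hQ1
  set B : ℕ → Set (Ideal (𝓞 F) → ℝ) := fun Q => if Q1 ≤ Q then BC.E F g cd (V Q) Q else ∅ with hB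
  have hBle : ∀ Q : ℕ, Measure.infinitePi μ (B Q) ≤ ENNReal.ofReal (1 / (Q : ℝ) ^ 2) := by
    intro Q
    by_cases h : Q1 ≤ Q
    · have hQ03 : Q0 ≤ Q := le_trans (le_max_left _ _) h
      have hQ3 : 3 ≤ Q := le_trans (le_max_right _ _) h
      obtain ⟨k, hk, hle⟩ := hQ0 Q hQ03
      have h1 := BC.meas_E F hEXP hCNT C hC hH μ hμ g cd hfam.bdd A a hA (V Q) (Real.exp_pos _) Q k hQ3 hk
      simp only [hB, if_pos h]
      refine h1.trans (ENNReal.ofReal_le_ofReal ?_)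
      rw [← mul_div_assoc, div_le_iff₀ (pow_pos (Real.exp_pos _) _)]
      refine le_trans ?_ hle
      have hlQ : 0 ≤ Real.log Q := Real.log_nonneg (by exact_mod_cast (by omega : 1 ≤ Q))
      have hC0 : 0 ≤ C := by linarith
      gcongr
      · exact le_max_right _ _
      · exact le_max_left _ _
    · simp only [hB, if_neg h]
      simp
  have hsum : ∑' Q, Measure.infinitePi μ (B Q) ≠ ⊤ := by
    refine ne_top_of_le_ne_top ?_ (ENNReal.tsum_le_tsum hBle)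
    have hs : Summable fun Q : ℕ => 1 / (Q : ℝ) ^ 2 := Real.summable_one_div_nat_pow.2 (by norm_num)
    rw [← ENNReal.ofReal_tsum_of_nonneg (fun _ => by positivity) hs]
    exact ENNReal.ofReal_ne_top
  filter_upwards [ae_eventually_notMem hsum] with x hx
  filter_upwards [hx, Filter.eventually_ge_atTop Q1] with Q hxQ hQ i N j hi hN hj
  by_contra hcon
  push Not at hcon
  apply hxQ
  simp only [hB, if_pos hQ]
  exact ⟨i, N, j, hi, hN, hj, hcon⟩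

end Pool.Agent.T2H95.LF
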