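import Pool.Agent.T2H95.LF.Stm

set_option autoImplicit false

open MeasureTheory Filter Topology Finset NumberField UniqueFactorizationMonoid
open Pool.Agent.T2H95.LR (he S_HE)

namespace Pool.Agent.T2H95.LF

namespace CNT

variable (F : Type) [Field F] [NumberField F]

open scoped Classical in
lemma mem_sqI {J : Type} [Fintype J] {N : ℕ} {v : J → Ideal (𝓞 F)} :
    v ∈ sqI F J N ↔ (∀ j, v j ∈ ball F N) ∧ ∃ m : Ideal (𝓞 F), ∏ j, v j = m ^ 2 := by
  unfold sqI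
  rw [Finset.mem_filter, Fintype.mem_piFinset]

open scoped Classical in
lemma mem_tupI {J : Type} [Fintype J] {m : Ideal (𝓞 F)} {v : J → Ideal (𝓞 F)} :
    v ∈ tupI F J m ↔ (∀ j, v j ∈ ball F (Ideal.absNorm m)) ∧ ∏ j, v j = m := by
  unfold tupI
  rw [Finset.mem_filter, Fintype.mem_piFinset]

open scoped Classical in
/-- the square root of the product -/
noncomputable def rt {J : Type} [Fintype J] (v : J → Ideal (𝓞 F)) : Ideal (𝓞 F) :=
  if h : ∃ m : Ideal (𝓞 F), ∏ j, v j = m ^ 2 then h.choose else ⊥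

lemma rt_sq {J : Type} [Fintype J] {N : ℕ} {v : J → Ideal (𝓞 F)} (h : v ∈ sqI F J N) :
    ∏ j, v j = rt F v ^ 2 := by
  have h2 := ((mem_sqI F).1 h).2
  unfold rt
  rw [dif_pos h2]
  exact h2.choose_spec

lemma pos {J : Type} [Fintype J] {N : ℕ} {v : J → Ideal (𝓞 F)} (h : v ∈ sqI F J N) (j : J) :
    v j ≠ ⊥ ∧ Ideal.absNorm (v j) ≤ N :=
  (mem_ball F N _).1 (((mem_sqI F).1 h).1 j)

lemma rt_ne {J : Type} [Fintype J] {N : ℕ} {v : J → Ideal (𝓞 F)} (h : v ∈ sqI F J N) :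
    rt F v ≠ ⊥ := by
  intro h0
  have h1 := rt_sq F h
  have h2 : ∏ j, v j ≠ 0 := Finset.prod_ne_zero_iff.2 fun j _ => (pos F h j).1
  apply h2
  rw [h1, h0]
  show (0 : Ideal (𝓞 F)) ^ 2 = 0
  exact zero_pow two_ne_zero

/-- the pairs (tuple, choice of factorisations) -/
noncomputable def AA (J : Type) [Fintype J] [DecidableEq J] (N : ℕ) :
    Finset (Σ _ : J → Ideal (𝓞 F), J → Bool → Ideal (𝓞 F)) :=
  (sqI F J N).sigma fun v => Fintype.piFinset fun j => tupI F Bool (v j)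

/-- the target -/
noncomputable def BB (J : Type) [Fintype J] (M : ℕ) :
    Finset (Σ _ : Ideal (𝓞 F), J ⊕ J → Ideal (𝓞 F)) :=
  (ball F M).sigma fun m => tupI F (J ⊕ J) (m ^ 2)

/-- the injection -/
noncomputable def ff {J : Type} [Fintype J]
    (x : Σ _ : J → Ideal (𝓞 F), J → Bool → Ideal (𝓞 F)) :
    Σ _ : Ideal (𝓞 F), J ⊕ J → Ideal (𝓞 F) :=
  ⟨rt F x.1, Sum.elim (fun j => x.2 j false) fun j => x.2 j true⟩

lemma ff_inj {J : Type} [Fintype J] [DecidableEq J] (N : ℕ) :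
    Set.InjOn (ff F : (Σ _ : J → Ideal (𝓞 F), J → Bool → Ideal (𝓞 F)) → _) (AA F J N) := by
  classical
  rintro ⟨v, a⟩ hv ⟨v', a'⟩ hv' h
  have hv1 := (Finset.mem_sigma.1 hv).2
  have hv2 := (Finset.mem_sigma.1 hv').2
  rw [Fintype.mem_piFinset] at hv1 hv2
  unfold ff at h
  rw [Sigma.mk.injEq] at h
  have h2 := eq_of_heq h.2
  have ha : a = a' := by
    funext j b
    cases b with
    | false => exact congrFun h2 (Sum.inl j)
    | true => exact congrFun h2 (Sum.inr j)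
  subst ha
  have hvv : v = v' := by
    funext j
    exact ((mem_tupI F).1 (hv1 j)).2.symm.trans ((mem_tupI F).1 (hv2 j)).2
  subst hvv
  rfl

lemma ff_maps {J : Type} [Fintype J] [DecidableEq J] (N k : ℕ) (hJ : Fintype.card J = 2 * k) :
    ∀ x ∈ AA F J N, ff F x ∈ BB F J (N ^ k) := by
  classical
  rintro ⟨v, a⟩ hx
  have hv := (Finset.mem_sigma.1 hx).1
  have ha := (Finset.mem_sigma.1 hx).2
  rw [Fintype.mem_piFinset] at ha
  simp only at hv ha
  have hp := pos F hv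
  have hsq := rt_sq F hv
  have hrt1 := rt_ne F hv
  have hrt2 : Ideal.absNorm (rt F v) ≤ N ^ k := by
    have h1 : ∏ j, Ideal.absNorm (v j) ≤ N ^ (2 * k) := by
      rw [← hJ, ← Finset.card_univ, ← Finset.prod_const]
      exact Finset.prod_le_prod' fun j _ => (hp j).2
    rw [← map_prod, hsq, map_pow, mul_comm 2 k, pow_mul] at h1
    exact (Nat.pow_le_pow_iff_left two_ne_zero).1 h1
  unfold BB ff
  rw [Finset.mem_sigma]
  refine ⟨(mem_ball F _ _).2 ⟨hrt1, hrt2⟩, ?_⟩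
  rw [mem_tupI]
  have hprod : ∏ j : J ⊕ J, Sum.elim (fun j => a j false) (fun j => a j true) j = rt F v ^ 2 := by
    rw [Fintype.prod_sum_type]
    simp only [Sum.elim_inl, Sum.elim_inr]
    rw [← Finset.prod_mul_distrib, ← hsq]
    refine Finset.prod_congr rfl fun j _ => ?_
    rw [← ((mem_tupI F).1 (ha j)).2, Fintype.prod_bool, mul_comm]
  refine ⟨?_, hprod⟩
  intro j
  have hsq0 : rt F v ^ 2 ≠ 0 := pow_ne_zero 2 hrt1
  have hne : ∏ j : J ⊕ J, Sum.elim (fun j => a j false) (fun j => a j true) j ≠ 0 := by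
    rw [hprod]; exact hsq0
  have hj0 : Sum.elim (fun j => a j false) (fun j => a j true) j ≠ 0 :=
    (Finset.prod_ne_zero_iff.1 hne) j (Finset.mem_univ _)
  have hjd : Sum.elim (fun j => a j false) (fun j => a j true) j ∣ rt F v ^ 2 := by
    rw [← hprod]
    exact Finset.dvd_prod_of_mem _ (Finset.mem_univ _)
  refine (mem_ball F _ _).2 ⟨hj0, ?_⟩
  have h3 : Ideal.absNorm (rt F v ^ 2) ≠ 0 := by
    rw [Ne, Ideal.absNorm_eq_zero_iff]
    exact hsq0
  exact Nat.le_of_dvd (Nat.pos_of_ne_zero h3) (map_dvd Ideal.absNorm hjd)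

end CNT

open CNT in
theorem pCNT (F : Type) [Field F] [NumberField F] (hSQC : S_SQC F) (hTT : S_TT F) :
    S_CNT F := by
  classical
  intro k N hk
  set J := Fin k ⊕ Fin k with hJdef
  have hJ : Fintype.card J = 2 * k := by
    simp [hJdef, two_mul]
  have h1 : ∑ v ∈ sqI F J N, ∏ j, (dv F (v j) : ℝ) / Real.sqrt (Ideal.absNorm (v j) : ℕ) =
      ∑ x ∈ AA F J N, 1 / ((Ideal.absNorm (rt F x.1) : ℕ) : ℝ) := by
    unfold AA
    rw [Finset.sum_sigma]
    refine Finset.sum_congr rfl fun v hv => ?_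
    show _ = ∑ s ∈ _, 1 / ((Ideal.absNorm (rt F v) : ℕ) : ℝ)
    rw [Finset.sum_const, Fintype.card_piFinset, nsmul_eq_mul, Finset.prod_div_distrib]
    have h2 : ∏ j, Real.sqrt ((Ideal.absNorm (v j) : ℕ) : ℝ) =
        ((Ideal.absNorm (rt F v) : ℕ) : ℝ) := by
      rw [← Real.sqrt_prod _ (fun j _ => Nat.cast_nonneg _), ← Nat.cast_prod, ← map_prod,
        rt_sq F hv, map_pow]
      push_cast
      exact Real.sqrt_sq (Nat.cast_nonneg _)
    rw [h2]
    unfold dv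
    push_cast
    ring
  rw [h1]
  have h2 : ∑ x ∈ AA F J N, 1 / ((Ideal.absNorm (rt F x.1) : ℕ) : ℝ) =
      ∑ y ∈ (AA F J N).image (ff F), 1 / ((Ideal.absNorm y.1 : ℕ) : ℝ) := by
    rw [Finset.sum_image (ff_inj F N)]
    rfl
  have h3 : ∑ y ∈ (AA F J N).image (ff F), 1 / ((Ideal.absNorm y.1 : ℕ) : ℝ) ≤
      ∑ y ∈ BB F J (N ^ k), 1 / ((Ideal.absNorm y.1 : ℕ) : ℝ) := by
    refine Finset.sum_le_sum_of_subset_of_nonneg ?_ fun y _ _ => by positivity
    intro y hy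
    obtain ⟨x, hx, rfl⟩ := Finset.mem_image.1 hy
    exact ff_maps F N k hJ x hx
  have h4 : ∑ y ∈ BB F J (N ^ k), 1 / ((Ideal.absNorm y.1 : ℕ) : ℝ) =
      ∑ m ∈ ball F (N ^ k), ((tupI F (J ⊕ J) (m ^ 2)).card : ℝ) / (Ideal.absNorm m : ℕ) := by
    unfold BB
    rw [Finset.sum_sigma]
    refine Finset.sum_congr rfl fun m _ => ?_
    show ∑ s ∈ tupI F (J ⊕ J) (m ^ 2), 1 / ((Ideal.absNorm m : ℕ) : ℝ) = _
    rw [Finset.sum_const, nsmul_eq_mul, mul_one_div]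
  have h5 : ∑ m ∈ ball F (N ^ k), ((tupI F (J ⊕ J) (m ^ 2)).card : ℝ) / (Ideal.absNorm m : ℕ) ≤
      ∑ m ∈ ball F (N ^ k), ((tupI F (J ⊕ J) m).card : ℝ) ^ 2 / (Ideal.absNorm m : ℕ) := by
    refine Finset.sum_le_sum fun m hm => ?_
    exact div_le_div_of_nonneg_right (hSQC (J ⊕ J) m ((mem_ball F _ _).1 hm).1)
      (Nat.cast_nonneg _)
  have h6 := hTT (J ⊕ J) (N ^ k)
  have h7 : Fintype.card (J ⊕ J) ^ 2 = 16 * k ^ 2 := by
    rw [Fintype.card_sum, hJ]; ring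
  rw [h7] at h6
  linarith

end Pool.Agent.T2H95.LF
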