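import Pool.Agent.T2H95.LF.Stm

set_option autoImplicit false

open MeasureTheory Filter Topology Finset NumberField UniqueFactorizationMonoid
open Pool.Agent.T2H95.LR (he S_HE)

namespace Pool.Agent.T2H95.LF

namespace EXP

variable (F : Type) [Field F] [NumberField F]

lemma countable_ideal : Countable (Ideal (𝓞 F)) := by
  have h1 : Countable (𝓞 F) :=
    Function.Injective.countable (NumberField.RingOfIntegers.basis F).equivFun.injective
  have h2 : Function.Surjective fun s : Finset (𝓞 F) => (Ideal.span (s : Set (𝓞 F))) := by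
    intro I
    obtain ⟨s, hs⟩ := IsNoetherian.noetherian I
    exact ⟨s, hs⟩
  exact h2.countable

/-- the coefficients -/
noncomputable def co (g : Ideal (𝓞 F) → ℂ) {k : ℕ} : Fin k ⊕ Fin k → Ideal (𝓞 F) → ℂ
  | Sum.inl _, n => g n * ((1 / Real.sqrt (Ideal.absNorm n : ℕ) : ℝ) : ℂ)
  | Sum.inr _, n => (starRingEnd ℂ) (g n) * ((1 / Real.sqrt (Ideal.absNorm n : ℕ) : ℝ) : ℂ)

lemma co_norm (g : Ideal (𝓞 F) → ℂ) (hg : ∀ n, ‖g n‖ ≤ 1) {k : ℕ} (j : Fin k ⊕ Fin k)
    (n : Ideal (𝓞 F)) : ‖co F g j n‖ ≤ 1 / Real.sqrt (Ideal.absNorm n : ℕ) := by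
  have h0 : (0 : ℝ) ≤ 1 / Real.sqrt (Ideal.absNorm n : ℕ) := by positivity
  have h1 : ‖((1 / Real.sqrt (Ideal.absNorm n : ℕ) : ℝ) : ℂ)‖ =
      1 / Real.sqrt (Ideal.absNorm n : ℕ) := by
    rw [Complex.norm_real, Real.norm_of_nonneg h0]
  rcases j with j | j
  · simp only [co]
    rw [norm_mul, h1]
    exact mul_le_of_le_one_left h0 (hg n)
  · simp only [co]
    rw [norm_mul, h1, RCLike.norm_conj]
    exact mul_le_of_le_one_left h0 (hg n)

open scoped Classical in
/-- the expansion -/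
lemma expand (x : Ideal (𝓞 F) → ℝ) (g : Ideal (𝓞 F) → ℂ) (k N : ℕ) :
    (((‖WI F x g N‖ ^ (2 * k) : ℝ)) : ℂ) =
      ∑ v ∈ Fintype.piFinset (fun _ : Fin k ⊕ Fin k => ball F N),
        ((∏ j, lamI F x (v j) : ℝ) : ℂ) * ∏ j, co F g j (v j) := by
  have h1 : (((‖WI F x g N‖ ^ (2 * k) : ℝ)) : ℂ) =
      WI F x g N ^ k * (starRingEnd ℂ) (WI F x g N) ^ k := by
    rw [← mul_pow, Complex.mul_conj, Complex.normSq_eq_norm_sq, pow_mul]
    push_cast
    rfl
  have h2 : WI F x g N ^ k * (starRingEnd ℂ) (WI F x g N) ^ k =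
      ∏ j : Fin k ⊕ Fin k, ∑ n ∈ ball F N, (lamI F x n : ℂ) * co F g j n := by
    have hl : ∀ i : Fin k, ∑ n ∈ ball F N, (lamI F x n : ℂ) *
        co F g (Sum.inl i : Fin k ⊕ Fin k) n = WI F x g N := by
      intro i
      unfold WI
      refine Finset.sum_congr rfl fun n _ => ?_
      simp only [co]
      ring
    have hr : ∀ i : Fin k, ∑ n ∈ ball F N, (lamI F x n : ℂ) *
        co F g (Sum.inr i : Fin k ⊕ Fin k) n = (starRingEnd ℂ) (WI F x g N) := by
      intro i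
      unfold WI
      rw [map_sum]
      refine Finset.sum_congr rfl fun n _ => ?_
      simp only [co, map_mul, Complex.conj_ofReal]
      ring
    rw [Fintype.prod_sum_type, Finset.prod_congr rfl fun i _ => hl i,
      Finset.prod_congr rfl fun i _ => hr i, Finset.prod_const, Finset.prod_const,
      Finset.card_univ, Fintype.card_fin]
  rw [h1, h2, Finset.prod_univ_sum]
  refine Finset.sum_congr rfl fun v _ => ?_
  rw [Finset.prod_mul_distrib]
  push_cast
  rfl

open scoped Classical in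
lemma mem_sqI {J : Type} [Fintype J] {N : ℕ} {v : J → Ideal (𝓞 F)} :
    v ∈ sqI F J N ↔ (∀ j, v j ∈ ball F N) ∧ ∃ m : Ideal (𝓞 F), ∏ j, v j = m ^ 2 := by
  unfold sqI
  rw [Finset.mem_filter, Fintype.mem_piFinset]

end EXP

open EXP in
open scoped Classical in
theorem pEXP (F : Type) [Field F] [NumberField F] (hLAM : S_LAM F) (hPAR : S_PAR F) :
    S_EXP F := by
  intro μ hμ g hg k N hk
  obtain ⟨hlam, hcont, -⟩ := hLAM
  have hcountable := countable_ideal F
  have : ∀ p, IsProbabilityMeasure (μ p) := hμ.prob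
  set P := Measure.infinitePi μ with hP
  -- almost surely all traces are bounded by 2
  have hae : ∀ᵐ x ∂P, ∀ p, |x p| ≤ 2 := by
    rw [ae_all_iff]
    intro p
    have h1 : P.map (fun x : Ideal (𝓞 F) → ℝ => x p) = μ p := Measure.infinitePi_map_eval μ p
    have h2 := hμ.bdd p
    rw [← h1] at h2
    exact ae_of_ae_map (measurable_pi_apply p).aemeasurable h2
  set D : (Fin k ⊕ Fin k → Ideal (𝓞 F)) → ℝ := fun v => ∏ j, (dv F (v j) : ℝ) with hD
  have hbd : ∀ v ∈ Fintype.piFinset (fun _ : Fin k ⊕ Fin k => ball F N),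
      ∀ᵐ x ∂P, ‖((∏ j, lamI F x (v j) : ℝ))‖ ≤ D v := by
    intro v hv
    filter_upwards [hae] with x hx
    rw [Real.norm_eq_abs, Finset.abs_prod]
    refine Finset.prod_le_prod (fun j _ => abs_nonneg _) fun j _ => ?_
    exact hlam x (v j) hx ((mem_ball F N _).1 (Fintype.mem_piFinset.1 hv j)).1
  have hmeas : ∀ v : Fin k ⊕ Fin k → Ideal (𝓞 F),
      Measurable fun x : Ideal (𝓞 F) → ℝ => ∏ j, lamI F x (v j) := fun v =>
    (continuous_finsetProd _ fun j _ => hcont (v j)).measurable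
  have hint : ∀ v ∈ Fintype.piFinset (fun _ : Fin k ⊕ Fin k => ball F N),
      Integrable (fun x : Ideal (𝓞 F) → ℝ => ∏ j, lamI F x (v j)) P := fun v hv =>
    Integrable.of_bound (hmeas v).aestronglyMeasurable (D v) (hbd v hv)
  have hF : Integrable (fun x => (((‖WI F x g N‖ ^ (2 * k) : ℝ)) : ℂ)) P := by
    have : (fun x => (((‖WI F x g N‖ ^ (2 * k) : ℝ)) : ℂ)) = fun x =>
      ∑ v ∈ Fintype.piFinset (fun _ : Fin k ⊕ Fin k => ball F N),
        ((∏ j, lamI F x (v j) : ℝ) : ℂ) * ∏ j, co F g j (v j) := by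
      funext x
      exact expand F x g k N
    rw [this]
    exact integrable_finsetSum _ fun v hv => (hint v hv).ofReal.mul_const _
  refine ⟨?_, ?_⟩
  · have := hF.re
    refine this.congr (ae_of_all _ fun x => ?_)
    show RCLike.re (((‖WI F x g N‖ ^ (2 * k) : ℝ)) : ℂ) = _
    exact Complex.ofReal_re _
  · have h1 : ((∫ x, ‖WI F x g N‖ ^ (2 * k) ∂P : ℝ) : ℂ) =
        ∑ v ∈ Fintype.piFinset (fun _ : Fin k ⊕ Fin k => ball F N),
          ((∫ x, ∏ j, lamI F x (v j) ∂P : ℝ) : ℂ) * ∏ j, co F g j (v j) := by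
      rw [← integral_complex_ofReal]
      have : (fun x => (((‖WI F x g N‖ ^ (2 * k) : ℝ)) : ℂ)) = fun x =>
        ∑ v ∈ Fintype.piFinset (fun _ : Fin k ⊕ Fin k => ball F N),
          ((∏ j, lamI F x (v j) : ℝ) : ℂ) * ∏ j, co F g j (v j) := by
        funext x
        exact expand F x g k N
      rw [this, integral_finsetSum _ fun v hv => (hint v hv).ofReal.mul_const _]
      refine Finset.sum_congr rfl fun v _ => ?_
      rw [integral_mul_const, integral_complex_ofReal]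
    have h2 : ∫ x, ‖WI F x g N‖ ^ (2 * k) ∂P ≤
        ‖((∫ x, ‖WI F x g N‖ ^ (2 * k) ∂P : ℝ) : ℂ)‖ := by
      rw [Complex.norm_real]
      exact le_abs_self _
    refine h2.trans ?_
    rw [h1]
    refine (norm_sum_le _ _).trans ?_
    -- terms
    have h3 : ∀ v ∈ Fintype.piFinset (fun _ : Fin k ⊕ Fin k => ball F N),
        ‖((∫ x, ∏ j, lamI F x (v j) ∂P : ℝ) : ℂ) * ∏ j, co F g j (v j)‖ ≤
          D v * ∏ j, (1 / Real.sqrt (Ideal.absNorm (v j) : ℕ)) := by
      intro v hv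
      rw [norm_mul, Complex.norm_real, norm_prod]
      have h4 : ‖∫ x, ∏ j, lamI F x (v j) ∂P‖ ≤ D v := by
        have := norm_integral_le_of_norm_le_const (hbd v hv)
        simpa using this
      have h5 : ∏ j, ‖co F g j (v j)‖ ≤ ∏ j, (1 / Real.sqrt (Ideal.absNorm (v j) : ℕ)) :=
        Finset.prod_le_prod (fun j _ => norm_nonneg _) fun j _ => co_norm F g hg j (v j)
      exact mul_le_mul h4 h5 (Finset.prod_nonneg fun j _ => norm_nonneg _)
        ((norm_nonneg _).trans h4)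
    have h6 : ∑ v ∈ Fintype.piFinset (fun _ : Fin k ⊕ Fin k => ball F N),
        ‖((∫ x, ∏ j, lamI F x (v j) ∂P : ℝ) : ℂ) * ∏ j, co F g j (v j)‖ =
        ∑ v ∈ sqI F (Fin k ⊕ Fin k) N,
        ‖((∫ x, ∏ j, lamI F x (v j) ∂P : ℝ) : ℂ) * ∏ j, co F g j (v j)‖ := by
      symm
      refine Finset.sum_subset (fun v hv => Fintype.mem_piFinset.2 ((mem_sqI F).1 hv).1) ?_
      intro v hv hv'
      have hns : ¬ ∃ m : Ideal (𝓞 F), ∏ j, v j = m ^ 2 := fun h =>
        hv' ((mem_sqI F).2 ⟨Fintype.mem_piFinset.1 hv, h⟩)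
      have h0 : ∀ j, v j ≠ ⊥ := fun j =>
        ((mem_ball F N _).1 (Fintype.mem_piFinset.1 hv j)).1
      rw [hPAR μ hμ (Fin k ⊕ Fin k) v h0 hns]
      simp
    rw [h6]
    refine Finset.sum_le_sum fun v hv => ?_
    have hv' : v ∈ Fintype.piFinset (fun _ : Fin k ⊕ Fin k => ball F N) :=
      Fintype.mem_piFinset.2 ((mem_sqI F).1 hv).1
    refine (h3 v hv').trans (le_of_eq ?_)
    rw [hD, ← Finset.prod_mul_distrib]
    refine Finset.prod_congr rfl fun j _ => ?_
    rw [mul_one_div]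

end Pool.Agent.T2H95.LF
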