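import Pool.Agent.T2H95.LF.Stm
import Pool.Agent.T2H95.LR.FIN

set_option autoImplicit false

open MeasureTheory Filter Topology Finset NumberField UniqueFactorizationMonoid
open Pool.Agent.T2H95.LR (he S_HE)
open Pool.Agent.T2H95.LR.FIN (c0 s C1 c0_pos c0_le s_le)

namespace Pool.Agent.T2H95.LF

theorem pFIN (F : Type) [Field F] [NumberField F] (hBC : S_BC F) (hGRD : S_GRD F) : S_FIN F := by
  intro ι g cd hfam μ hμ
  have := hμ.prob
  have hb : ∀ᵐ x ∂(Measure.infinitePi μ), ∀ P, |x P| ≤ 2 := by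
    have hcount : Countable (Ideal (𝓞 F)) := by
      have h1 : (Set.univ : Set (Ideal (𝓞 F))) ⊆ {⊥} ∪ ⋃ N : ℕ, (ball F N : Set (Ideal (𝓞 F))) := by
        intro I _
        by_cases hI : I = ⊥
        · left; exact hI
        · right
          rw [Set.mem_iUnion]
          exact ⟨Ideal.absNorm I, Finset.mem_coe.2 ((mem_ball F _ I).2 ⟨hI, le_rfl⟩)⟩
      have h2 : ({⊥} ∪ ⋃ N : ℕ, (ball F N : Set (Ideal (𝓞 F)))).Countable :=
        (Set.countable_singleton _).union (Set.countable_iUnion fun N => (ball F N).countable_toSet)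
      exact Set.countable_univ_iff.1 (h2.mono h1)
    rw [ae_all_iff]
    intro P
    have hmp := measurePreserving_eval_infinitePi μ P
    exact hmp.quasiMeasurePreserving.ae (hμ.bdd P)
  obtain ⟨C', hC', hBC'⟩ := hBC ι g cd hfam
  obtain ⟨C, hC, hG⟩ := hGRD
  filter_upwards [hBC' μ hμ, hb] with x hx hx2
  obtain ⟨Q₀, hQ₀⟩ := eventually_atTop.1 hx
  have hc0 := c0_pos
  have hC0 : 0 < C := by linarith
  have hlogQ0 : 0 ≤ Real.log (C * (Q₀ : ℝ) ^ 2 + 1) := Real.log_nonneg (by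
    have : 0 ≤ C * (Q₀ : ℝ) ^ 2 := by positivity
    linarith)
  have hlogC : 0 ≤ Real.log (1 + C) := Real.log_nonneg (by linarith)
  set Ca : ℝ := Real.log (C * (Q₀ : ℝ) ^ 2 + 1) / c0 with hCa
  set Cb : ℝ := (C' + Real.log (1 + C) / c0) * Real.sqrt (2 * C1) with hCb
  have hCa0 : 0 ≤ Ca := div_nonneg hlogQ0 hc0.le
  have hCb0 : 0 ≤ Cb := by positivity
  refine ⟨Ca + Cb, ?_⟩
  intro Q i N t hQ hqQ hNQ htQ
  have hsQ : c0 ≤ s Q := c0_le hQ
  have hsQ0 : 0 ≤ s Q := hc0.le.trans hsQ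
  change ‖SI F x (g i) N t‖ ≤ Real.exp ((Ca + Cb) * s Q)
  set R : ℕ := ⌈Q⌉₊ with hR
  have hQR : Q ≤ R := Nat.le_ceil Q
  have hR3 : (3 : ℝ) ≤ R := hQ.trans hQR
  have hRQ : (R : ℝ) ≤ 2 * Q := by
    have := (Nat.ceil_lt_add_one (by linarith : 0 ≤ Q)).le
    linarith
  rcases lt_or_ge R Q₀ with hlt | hge
  · have h1 := (hG x hx2 (g i) (hfam.bdd i) N t t).2
    have h2 : C * (N : ℝ) ^ 2 ≤ C * (Q₀ : ℝ) ^ 2 := by
      apply mul_le_mul_of_nonneg_left _ hC0.le
      apply pow_le_pow_left₀ (Nat.cast_nonneg N)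
      have : (R : ℝ) ≤ Q₀ := by exact_mod_cast hlt.le
      linarith
    have h3 : C * (Q₀ : ℝ) ^ 2 ≤ Real.exp (Ca * s Q) := by
      calc C * (Q₀ : ℝ) ^ 2 ≤ C * (Q₀ : ℝ) ^ 2 + 1 := by linarith
        _ = Real.exp (Real.log (C * (Q₀ : ℝ) ^ 2 + 1)) := (Real.exp_log (by positivity)).symm
        _ ≤ Real.exp (Ca * s Q) := by
          apply Real.exp_le_exp.2
          calc Real.log (C * (Q₀ : ℝ) ^ 2 + 1) = Ca * c0 := by rw [hCa]; field_simp
            _ ≤ Ca * s Q := mul_le_mul_of_nonneg_left hsQ hCa0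
    refine h1.trans (h2.trans (h3.trans ?_))
    apply Real.exp_le_exp.2
    exact mul_le_mul_of_nonneg_right (by linarith) hsQ0
  · have hR0 : (0 : ℝ) < R := by linarith
    set j : ℤ := round (t * (R : ℝ) ^ 4) with hj
    have hjabs : |j| ≤ (R : ℤ) ^ 5 := by
      have h1 : |t * (R : ℝ) ^ 4| ≤ (R : ℝ) ^ 5 := by
        rw [abs_mul, abs_of_nonneg (by positivity : (0 : ℝ) ≤ (R : ℝ) ^ 4)]
        have : |t| ≤ R := htQ.trans hQR
        calc |t| * (R : ℝ) ^ 4 ≤ R * (R : ℝ) ^ 4 := mul_le_mul_of_nonneg_right this (by positivity)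
          _ = (R : ℝ) ^ 5 := by ring
      obtain ⟨h2, h3⟩ := abs_le.1 h1
      have h4 := abs_sub_round (t * (R : ℝ) ^ 4)
      obtain ⟨h5, h6⟩ := abs_le.1 h4
      rw [← hj] at h5 h6
      rw [abs_le]
      constructor
      · have h7 : (-((R : ℤ) ^ 5) : ℝ) - 1 < (j : ℝ) := by push_cast; linarith
        have h8 : (-((R : ℤ) ^ 5) - 1 : ℤ) < j := by exact_mod_cast h7
        omega
      · have h7 : (j : ℝ) < ((R : ℤ) ^ 5 : ℝ) + 1 := by push_cast; linarith
        have h8 : j < (R : ℤ) ^ 5 + 1 := by exact_mod_cast h7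
        omega
    have hqR : cd i ≤ R := by
      have : (cd i : ℝ) ≤ R := hqQ.trans hQR
      exact_mod_cast this
    have hNR' : (N : ℝ) ≤ R := hNQ.trans hQR
    have hNR : N ≤ R := by exact_mod_cast hNR'
    have h1 := hQ₀ R hge i N j hqR hNR hjabs
    have h2 := (hG x hx2 (g i) (hfam.bdd i) N t ((j : ℝ) / (R : ℝ) ^ 4)).1
    have h3 : |t - (j : ℝ) / (R : ℝ) ^ 4| ≤ 1 / (R : ℝ) ^ 4 := by
      have h4 := abs_sub_round (t * (R : ℝ) ^ 4)
      rw [← hj] at h4
      have h5 : t - (j : ℝ) / (R : ℝ) ^ 4 = (t * (R : ℝ) ^ 4 - j) / (R : ℝ) ^ 4 := by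
        field_simp
      rw [h5, abs_div, abs_of_nonneg (by positivity : (0 : ℝ) ≤ (R : ℝ) ^ 4)]
      apply div_le_div_of_nonneg_right _ (by positivity)
      linarith
    have h4 : C * (N : ℝ) ^ 3 * |t - (j : ℝ) / (R : ℝ) ^ 4| ≤ C := by
      calc C * (N : ℝ) ^ 3 * |t - (j : ℝ) / (R : ℝ) ^ 4|
          ≤ C * (R : ℝ) ^ 3 * (1 / (R : ℝ) ^ 4) := by
            apply mul_le_mul _ h3 (abs_nonneg _) (by positivity)
            apply mul_le_mul_of_nonneg_left _ hC0.le
            exact pow_le_pow_left₀ (Nat.cast_nonneg N) hNR' 3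
        _ = C * (1 / (R : ℝ)) := by field_simp
        _ ≤ C * 1 := by
          apply mul_le_mul_of_nonneg_left _ hC0.le
          rw [div_le_one hR0]
          linarith
        _ = C := mul_one C
    have h5 : ‖SI F x (g i) N t‖ ≤ Real.exp (C' * s R) + C := by
      have h6 : ‖SI F x (g i) N t‖ ≤ ‖SI F x (g i) N ((j : ℝ) / (R : ℝ) ^ 4)‖ +
          ‖SI F x (g i) N t - SI F x (g i) N ((j : ℝ) / (R : ℝ) ^ 4)‖ := by
        have := norm_add_le (SI F x (g i) N ((j : ℝ) / (R : ℝ) ^ 4))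
          (SI F x (g i) N t - SI F x (g i) N ((j : ℝ) / (R : ℝ) ^ 4))
        simpa using this
      have h7 : ‖SI F x (g i) N ((j : ℝ) / (R : ℝ) ^ 4)‖ ≤ Real.exp (C' * s R) := h1
      linarith [h2.trans h4]
    have hsR : c0 ≤ s R := c0_le hR3
    have hsR0 : 0 ≤ s R := hc0.le.trans hsR
    have h6 : Real.exp (C' * s R) + C ≤ Real.exp ((C' + Real.log (1 + C) / c0) * s R) := by
      have h7 : (1 : ℝ) ≤ Real.exp (C' * s R) := Real.one_le_exp (by positivity)
      have h8 : 1 + C ≤ Real.exp (Real.log (1 + C) / c0 * s R) := by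
        calc 1 + C = Real.exp (Real.log (1 + C)) := (Real.exp_log (by linarith)).symm
          _ ≤ Real.exp (Real.log (1 + C) / c0 * s R) := by
            apply Real.exp_le_exp.2
            rw [div_mul_eq_mul_div, le_div_iff₀ hc0]
            exact mul_le_mul_of_nonneg_left hsR hlogC
      calc Real.exp (C' * s R) + C ≤ (1 + C) * Real.exp (C' * s R) := by nlinarith
        _ ≤ Real.exp (Real.log (1 + C) / c0 * s R) * Real.exp (C' * s R) :=
          mul_le_mul_of_nonneg_right h8 (by positivity)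
        _ = Real.exp ((C' + Real.log (1 + C) / c0) * s R) := by
          rw [← Real.exp_add]
          congr 1
          ring
    refine h5.trans (h6.trans ?_)
    apply Real.exp_le_exp.2
    calc (C' + Real.log (1 + C) / c0) * s R ≤ (C' + Real.log (1 + C) / c0) * (Real.sqrt (2 * C1) * s Q) :=
          mul_le_mul_of_nonneg_left (s_le hQ hR3 hRQ) (by positivity)
      _ = Cb * s Q := by rw [hCb]; ring
      _ ≤ (Ca + Cb) * s Q := mul_le_mul_of_nonneg_right (by linarith) hsQ0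

end Pool.Agent.T2H95.LF
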