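import Pool.Agent.T2H95.LF.Stm
import Pool.Agent.T2H95.LR.GRD

set_option autoImplicit false

open MeasureTheory Filter Topology Finset NumberField UniqueFactorizationMonoid

namespace Pool.Agent.T2H95.LF

open Pool.Agent.T2H95.LR.GRD in
theorem pGRD (F : Type) [Field F] [NumberField F] (hLAM : S_LAM F) (hHARM : S_HARM F) : S_GRD F := by
  obtain ⟨C, hC1, hball, -⟩ := hHARM
  have hC0 : (0 : ℝ) ≤ C := by linarith
  refine ⟨C ^ 2, by nlinarith, ?_⟩
  intro x hx g hg N t t'
  have hn1 : ∀ I ∈ ball F N, 1 ≤ Ideal.absNorm I := by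
    intro I hI
    rw [mem_ball] at hI
    rcases Nat.eq_zero_or_pos (Ideal.absNorm I) with h | h
    · exact absurd (Ideal.absNorm_eq_zero_iff.1 h) hI.1
    · exact h
  have hlam : ∀ I ∈ ball F N, ‖(lamI F x I : ℂ)‖ ≤ C * N := by
    intro I hI
    have h1 := hn1 I hI
    rw [mem_ball] at hI
    rw [Complex.norm_real, Real.norm_eq_abs]
    refine (hLAM.1 x I hx hI.1).trans ?_
    have h2 : ((dv F I : ℕ) : ℝ) ≤ ((ball F (Ideal.absNorm I)).card : ℝ) := by
      exact_mod_cast hLAM.2.2 I hI.1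
    refine h2.trans ((hball _ h1).trans ?_)
    have h3 : ((Ideal.absNorm I : ℕ) : ℝ) ≤ N := by exact_mod_cast hI.2
    gcongr
  have hcard : ((ball F N).card : ℝ) ≤ C * N := by
    rcases Nat.eq_zero_or_pos N with h | h
    · have : (ball F N) = ∅ := by
        rw [Finset.eq_empty_iff_forall_notMem]
        intro I hI
        have h1 := hn1 I hI
        rw [mem_ball] at hI
        omega
      rw [this]
      simp
      positivity
    · exact hball N h
  have hinv : ∀ n : ℕ, 1 ≤ n → (Real.sqrt n)⁻¹ ≤ 1 := by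
    intro n hn
    apply inv_le_one_of_one_le₀
    rw [Real.one_le_sqrt]
    exact_mod_cast hn
  constructor
  · unfold SI
    rw [← sum_sub_distrib]
    calc ‖∑ I ∈ ball F N, ((lamI F x I : ℂ) * g I *
            ((Ideal.absNorm I : ℕ) : ℂ) ^ (-(1 / 2 : ℂ) - t * Complex.I) -
          (lamI F x I : ℂ) * g I * ((Ideal.absNorm I : ℕ) : ℂ) ^ (-(1 / 2 : ℂ) - t' * Complex.I))‖
        ≤ ∑ I ∈ ball F N, ‖((lamI F x I : ℂ) * g I *
            ((Ideal.absNorm I : ℕ) : ℂ) ^ (-(1 / 2 : ℂ) - t * Complex.I) -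
          (lamI F x I : ℂ) * g I * ((Ideal.absNorm I : ℕ) : ℂ) ^ (-(1 / 2 : ℂ) - t' * Complex.I))‖ :=
          norm_sum_le _ _
      _ ≤ ∑ I ∈ ball F N, (C * N) * (N * |t - t'|) := by
        apply sum_le_sum
        intro I hI
        have hl := hlam I hI
        have h1 := hn1 I hI
        rw [mem_ball] at hI
        have hnN : ((Ideal.absNorm I : ℕ) : ℝ) ≤ N := by exact_mod_cast hI.2
        have hn0 : (1 : ℝ) ≤ ((Ideal.absNorm I : ℕ) : ℝ) := by exact_mod_cast h1
        have hlog : Real.log ((Ideal.absNorm I : ℕ) : ℝ) ≤ N :=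
          (Real.log_le_self (by linarith)).trans hnN
        have hlog0 : 0 ≤ Real.log ((Ideal.absNorm I : ℕ) : ℝ) := Real.log_nonneg hn0
        rw [← mul_sub, norm_mul, norm_mul]
        calc ‖(lamI F x I : ℂ)‖ * ‖g I‖ *
              ‖((Ideal.absNorm I : ℕ) : ℂ) ^ (-(1 / 2 : ℂ) - t * Complex.I) -
              ((Ideal.absNorm I : ℕ) : ℂ) ^ (-(1 / 2 : ℂ) - t' * Complex.I)‖
            ≤ (C * N) * 1 * (1 * (N * |t - t'|)) := by
              have h2 : ‖((Ideal.absNorm I : ℕ) : ℂ) ^ (-(1 / 2 : ℂ) - t * Complex.I) -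
                  ((Ideal.absNorm I : ℕ) : ℂ) ^ (-(1 / 2 : ℂ) - t' * Complex.I)‖ ≤
                  1 * (N * |t - t'|) := by
                refine (norm_sub h1 t t').trans ?_
                have h3 := hinv _ h1
                gcongr
              have h4 := hg I
              gcongr
          _ = (C * N) * (N * |t - t'|) := by ring
      _ = (ball F N).card * ((C * N) * (N * |t - t'|)) := by
        rw [sum_const, nsmul_eq_mul]
      _ ≤ (C * N) * ((C * N) * (N * |t - t'|)) := by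
        gcongr
      _ = C ^ 2 * (N : ℝ) ^ 3 * |t - t'| := by ring
  · unfold SI
    calc ‖∑ I ∈ ball F N, (lamI F x I : ℂ) * g I *
            ((Ideal.absNorm I : ℕ) : ℂ) ^ (-(1 / 2 : ℂ) - t * Complex.I)‖
        ≤ ∑ I ∈ ball F N, ‖(lamI F x I : ℂ) * g I *
            ((Ideal.absNorm I : ℕ) : ℂ) ^ (-(1 / 2 : ℂ) - t * Complex.I)‖ :=
          norm_sum_le _ _
      _ ≤ ∑ I ∈ ball F N, C * (N : ℝ) := by
        apply sum_le_sum
        intro I hI
        have hl := hlam I hI
        have h1 := hn1 I hI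
        rw [norm_mul, norm_mul]
        calc ‖(lamI F x I : ℂ)‖ * ‖g I‖ * ‖((Ideal.absNorm I : ℕ) : ℂ) ^ (-(1 / 2 : ℂ) - t * Complex.I)‖
            ≤ (C * N) * 1 * 1 := by
              have h2 : ‖((Ideal.absNorm I : ℕ) : ℂ) ^ (-(1 / 2 : ℂ) - t * Complex.I)‖ ≤ 1 := by
                rw [norm_cp h1]
                exact hinv _ h1
              have h4 := hg I
              gcongr
          _ = C * N := by ring
      _ = (ball F N).card * (C * N) := by
        rw [sum_const, nsmul_eq_mul]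
      _ ≤ (C * N) * (C * N) := by
        gcongr
      _ = C ^ 2 * (N : ℝ) ^ 2 := by ring

end Pool.Agent.T2H95.LF
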