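import Pool.Agent.T2H95.LF.Stm

/-! Project LF, package LAM. -/

set_option autoImplicit false

open MeasureTheory Filter Topology Finset NumberField UniqueFactorizationMonoid
open Pool.Agent.T2H95.LR (he S_HE)

namespace Pool.Agent.T2H95.LF

namespace LAM

variable (F : Type) [Field F] [NumberField F]

theorem mem_tup (J : Type) [Fintype J] (m : Ideal (𝓞 F)) (v : J → Ideal (𝓞 F)) :
    v ∈ tupI F J m ↔ (∀ j, v j ∈ ball F (Ideal.absNorm m)) ∧ ∏ j, v j = m := by
  classical
  unfold tupI
  rw [Finset.mem_filter, Fintype.mem_piFinset]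

theorem dvd_mem_ball {I m : Ideal (𝓞 F)} (hm : m ≠ ⊥) (h : I ∣ m) : I ∈ ball F (Ideal.absNorm m) := by
  rw [mem_ball]
  constructor
  · rintro rfl
    apply hm
    rw [← Ideal.zero_eq_bot] at h ⊢
    exact zero_dvd_iff.mp h
  · apply Nat.le_of_dvd (Nat.pos_of_ne_zero fun h0 => hm (Ideal.absNorm_eq_zero_iff.mp h0))
    exact map_dvd Ideal.absNorm h

theorem dv_ge (I : Ideal (𝓞 F)) (hI : I ≠ ⊥) :
    (open scoped Classical in
      ∏ P ∈ (normalizedFactors I).toFinset, ((normalizedFactors I).count P + 1)) ≤ dv F I := by
  classical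
  rw [dv, ← Multiset.card_Iic]
  set M := normalizedFactors I with hM
  have hprod : M.prod = I := Ideal.prod_normalizedFactors_eq_self hI
  have hsub : ∀ s : Multiset (Ideal (𝓞 F)), s ≤ M → ∀ p ∈ s, Prime p := fun s hs p hp =>
    prime_of_normalized_factor p (Multiset.mem_of_le hs hp)
  refine Finset.card_le_card_of_injOn (fun s => fun b : Bool => if b then s.prod else (M - s).prod) ?_ ?_
  · intro s hs
    have hs' : s ≤ M := Finset.mem_Iic.mp hs
    have hmul : s.prod * (M - s).prod = I := by
      rw [← Multiset.prod_add, add_tsub_cancel_of_le hs', hprod]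
    show _ ∈ ((tupI F Bool I : Finset (Bool → Ideal (𝓞 F))) : Set (Bool → Ideal (𝓞 F)))
    rw [Finset.mem_coe, mem_tup]
    constructor
    · intro b
      apply dvd_mem_ball F hI
      cases b
      · exact ⟨s.prod, by rw [← hmul]; simp [mul_comm]⟩
      · exact ⟨(M - s).prod, by rw [← hmul]; simp⟩
    · rw [Fintype.prod_bool]
      simp only [if_true, Bool.false_eq_true, if_false]
      exact hmul
  · intro s hs s' hs' e
    have hs1 : s ≤ M := Finset.mem_Iic.mp hs
    have hs2 : s' ≤ M := Finset.mem_Iic.mp hs'
    have e1 : s.prod = s'.prod := by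
      have := congrFun e true
      simpa using this
    rw [← normalizedFactors_prod_of_prime (hsub s hs1), ← normalizedFactors_prod_of_prime (hsub s' hs2), e1]

end LAM

theorem pLAM (F : Type) [Field F] [NumberField F] (hHE : S_HE) : S_LAM F := by
  classical
  obtain ⟨-, hb, hc⟩ := hHE
  refine ⟨?_, ?_, ?_⟩
  · intro x I hx hI
    have h1 : |lamI F x I| ≤ ((∏ P ∈ (normalizedFactors I).toFinset, ((normalizedFactors I).count P + 1) : ℕ) : ℝ) := by
      unfold lamI
      rw [Finset.abs_prod]
      push_cast
      exact Finset.prod_le_prod (fun p _ => abs_nonneg _) fun p _ => hb (x p) _ (hx p)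
    refine h1.trans ?_
    exact_mod_cast LAM.dv_ge F I hI
  · intro I
    unfold lamI
    exact continuous_finsetProd _ fun p _ => (hc _).comp (continuous_apply p)
  · intro I hI
    rw [dv]
    refine Finset.card_le_card_of_injOn (fun v => v true) ?_ ?_
    · intro v hv
      exact ((LAM.mem_tup F Bool I v).mp hv).1 true
    · intro v hv v' hv' e
      have h1 := ((LAM.mem_tup F Bool I v).mp hv).2
      have h2 := ((LAM.mem_tup F Bool I v').mp hv').2
      rw [Fintype.prod_bool] at h1 h2
      have e' : v true = v' true := e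
      have h0 : v true ≠ 0 := by
        intro h0
        rw [h0, zero_mul] at h1
        exact hI (by rw [← h1, Ideal.zero_eq_bot])
      have h3 : v true * v false = v true * v' false := by
        rw [h1, e', h2]
      funext b
      cases b
      · exact mul_left_cancel₀ h0 h3
      · exact e'

end Pool.Agent.T2H95.LF
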