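import Pool.Agent.T2H95.LF.Stm

/-!
# LF, package PAR: orthogonality by parity over a number field
-/

set_option autoImplicit false

open MeasureTheory Filter Topology Finset NumberField UniqueFactorizationMonoid
open Pool.Agent.T2H95.LR (he S_HE)

namespace Pool.Agent.T2H95.LF

variable (F : Type) [Field F] [NumberField F]

namespace PAR

open scoped Classical in
/-- change the sign of the coordinate `p` -/
noncomputable def cf (p i : Ideal (𝓞 F)) (x : ℝ) : ℝ := if i = p then -x else x

omit [NumberField F] in
theorem cf_meas (p i : Ideal (𝓞 F)) : Measurable (cf F p i) := by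
  unfold cf
  split_ifs
  · exact measurable_neg
  · exact measurable_id

/-- the sign change as an equivalence -/
noncomputable def eq (p : Ideal (𝓞 F)) : (Ideal (𝓞 F) → ℝ) ≃ᵐ (Ideal (𝓞 F) → ℝ) where
  toFun x i := cf F p i (x i)
  invFun x i := cf F p i (x i)
  left_inv x := by
    funext i
    simp only [cf]
    split_ifs <;> simp
  right_inv x := by
    funext i
    simp only [cf]
    split_ifs <;> simp
  measurable_toFun := by
    refine measurable_pi_lambda _ fun i => (cf_meas F p i).comp (measurable_pi_apply i)
  measurable_invFun := by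
    refine measurable_pi_lambda _ fun i => (cf_meas F p i).comp (measurable_pi_apply i)

theorem eq_apply (p : Ideal (𝓞 F)) (x : Ideal (𝓞 F) → ℝ) (i : Ideal (𝓞 F)) :
    eq F p x i = cf F p i (x i) := rfl

theorem mp (μ : Ideal (𝓞 F) → Measure ℝ) (hμ : AdmI F μ) (p : Ideal (𝓞 F)) :
    MeasurePreserving (eq F p) (Measure.infinitePi μ) (Measure.infinitePi μ) := by
  have : ∀ i, IsProbabilityMeasure (μ i) := hμ.prob
  refine ⟨(eq F p).measurable, ?_⟩
  have h := Measure.infinitePi_map_pi (μ := μ) (f := fun i => cf F p i) (fun i => cf_meas F p i)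
  have h2 : (fun i => (μ i).map (cf F p i)) = μ := by
    funext i
    by_cases hi : i = p
    · have : cf F p i = fun x => -x := by
        funext x
        simp [cf, hi]
      rw [this]
      exact hμ.symm i
    · have : cf F p i = id := by
        funext x
        simp [cf, hi]
      rw [this, Measure.map_id]
  rw [h2] at h
  exact h

open scoped Classical in
theorem lam_eq (hHE : S_HE) (p : Ideal (𝓞 F)) (x : Ideal (𝓞 F) → ℝ) (n : Ideal (𝓞 F)) :
    lamI F (eq F p x) n = (-1) ^ ((normalizedFactors n).count p) * lamI F x n := by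
  unfold lamI
  by_cases hp : p ∈ (normalizedFactors n).toFinset
  · rw [← Finset.mul_prod_erase _ _ hp, ← Finset.mul_prod_erase _ (fun r => he (x r) _) hp]
    have e1 : he (eq F p x p) ((normalizedFactors n).count p) =
        (-1) ^ ((normalizedFactors n).count p) * he (x p) ((normalizedFactors n).count p) := by
      rw [eq_apply]
      simp only [cf, if_true]
      exact hHE.1 _ _
    have e2 : ∏ r ∈ (normalizedFactors n).toFinset.erase p,
        he (eq F p x r) ((normalizedFactors n).count r) =
        ∏ r ∈ (normalizedFactors n).toFinset.erase p, he (x r) ((normalizedFactors n).count r) := by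
      refine Finset.prod_congr rfl fun r hr => ?_
      rw [eq_apply, cf, if_neg (Finset.ne_of_mem_erase hr)]
    rw [e1, e2, mul_assoc]
  · have h0 : (normalizedFactors n).count p = 0 := by
      rw [Multiset.count_eq_zero]
      exact fun h => hp (Multiset.mem_toFinset.2 h)
    rw [h0, pow_zero, one_mul]
    refine Finset.prod_congr rfl fun r hr => ?_
    have : r ≠ p := fun h => hp (h ▸ hr)
    rw [eq_apply, cf, if_neg this]

open scoped Classical in
theorem exists_odd {n : Ideal (𝓞 F)} (hn : n ≠ ⊥) (h : ¬ ∃ m : Ideal (𝓞 F), n = m ^ 2) :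
    ∃ p, Odd ((normalizedFactors n).count p) := by
  by_contra hc
  push Not at hc
  apply h
  refine ⟨∏ p ∈ (normalizedFactors n).toFinset, p ^ ((normalizedFactors n).count p / 2), ?_⟩
  conv_lhs => rw [← Ideal.prod_normalizedFactors_eq_self hn, Finset.prod_multiset_count]
  rw [← Finset.prod_pow]
  refine Finset.prod_congr rfl fun p _ => ?_
  have he : Even ((normalizedFactors n).count p) := Nat.not_odd_iff_even.1 (hc p)
  rw [← pow_mul, Nat.div_mul_cancel he.two_dvd]

open scoped Classical in
theorem count_prod {J : Type} (s : Finset J) (v : J → Ideal (𝓞 F)) (hv : ∀ j, v j ≠ ⊥)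
    (p : Ideal (𝓞 F)) : (normalizedFactors (∏ j ∈ s, v j)).count p =
      ∑ j ∈ s, (normalizedFactors (v j)).count p := by
  induction s using Finset.induction_on with
  | empty =>
    rw [Finset.prod_empty, Finset.sum_empty, normalizedFactors_one]
    rfl
  | insert a s ha ih =>
    rw [Finset.prod_insert ha, Finset.sum_insert ha, normalizedFactors_mul (hv a)
      (Finset.prod_ne_zero_iff.2 fun j _ => hv j), Multiset.count_add, ih]

end PAR

open PAR in
open scoped Classical in
theorem pPAR (hHE : S_HE) (_ : S_LAM F) : S_PAR F := by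
  intro μ hμ J _ v hv hsq
  have hn : ∏ j, v j ≠ ⊥ := Finset.prod_ne_zero_iff.2 fun j _ => hv j
  obtain ⟨p, hp⟩ := exists_odd F hn hsq
  have hfac : (normalizedFactors (∏ j, v j)).count p = ∑ j, (normalizedFactors (v j)).count p :=
    count_prod F Finset.univ v hv p
  have hint : ∀ x, ∏ j, lamI F (eq F p x) (v j) = -∏ j, lamI F x (v j) := by
    intro x
    simp_rw [lam_eq F hHE]
    rw [Finset.prod_mul_distrib, Finset.prod_pow_eq_pow_sum, ← hfac, hp.neg_one_pow]
    ring
  have h1 := (mp F μ hμ p).integral_comp' (fun x => ∏ j, lamI F x (v j))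
  simp_rw [hint] at h1
  rw [integral_neg] at h1
  linarith

end Pool.Agent.T2H95.LF
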