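import Pool.Agent.T2H95.LF.Stm

/-! # Package REF of project LF: refinement of factorisations of ideals -/

set_option autoImplicit false

open MeasureTheory Filter Topology Finset NumberField UniqueFactorizationMonoid

namespace Pool.Agent.T2H95.LF

namespace REF

variable {F : Type} [Field F] [NumberField F]

lemma eq_one_of_dvd_one {I : Ideal (𝓞 F)} (h : I ∣ 1) : I = 1 := by
  rw [Ideal.one_eq_top]
  exact Ideal.isUnit_iff.1 (isUnit_of_dvd_one h)

lemma aux {ι : Type} [DecidableEq ι] (S : Finset ι) (w : ι → Ideal (𝓞 F)) :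
    ∀ a b : Ideal (𝓞 F), a ≠ 0 → b ≠ 0 → ∏ i ∈ S, w i = a * b →
      ∃ u v : ι → Ideal (𝓞 F), (∀ i ∈ S, w i = u i * v i) ∧
        ∏ i ∈ S, u i = a ∧ ∏ i ∈ S, v i = b := by
  induction S using Finset.induction_on with
  | empty =>
    intro a b _ _ h
    rw [Finset.prod_empty] at h
    have h1 : a = 1 := eq_one_of_dvd_one ⟨b, h⟩
    have h2 : b = 1 := eq_one_of_dvd_one ⟨a, by rw [h, mul_comm]⟩
    exact ⟨fun _ => 1, fun _ => 1, by simp, by simp [h1], by simp [h2]⟩
  | insert j S hj ih =>
    intro a b ha hb h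
    rw [Finset.prod_insert hj] at h
    obtain ⟨a1, b1, ha1, hb1, hab⟩ := exists_dvd_and_dvd_of_dvd_mul
      (show w j ∣ a * b from ⟨_, h.symm⟩)
    obtain ⟨a2, rfl⟩ := ha1
    obtain ⟨b2, rfl⟩ := hb1
    have ha1' : a1 ≠ 0 := fun hh => ha (by rw [hh, zero_mul])
    have ha2' : a2 ≠ 0 := fun hh => ha (by rw [hh, mul_zero])
    have hb1' : b1 ≠ 0 := fun hh => hb (by rw [hh, zero_mul])
    have hb2' : b2 ≠ 0 := fun hh => hb (by rw [hh, mul_zero])
    have h0 : w j ≠ 0 := by
      rw [hab]
      exact mul_ne_zero ha1' hb1'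
    have h2 : ∏ i ∈ S, w i = a2 * b2 := by
      have h3 : w j * ∏ i ∈ S, w i = w j * (a2 * b2) := by
        rw [h, hab]; ring
      exact mul_left_cancel₀ h0 h3
    obtain ⟨u, v, hu1, hu3, hu4⟩ := ih a2 b2 ha2' hb2' h2
    refine ⟨fun i => if i = j then a1 else u i, fun i => if i = j then b1 else v i, ?_, ?_, ?_⟩
    · intro i hi
      by_cases hij : i = j
      · simp only [hij, if_true]
        exact hab
      · simp only [if_neg hij]
        exact hu1 i ((Finset.mem_insert.mp hi).resolve_left hij)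
    · rw [Finset.prod_insert hj]
      simp only [if_true]
      congr 1
      rw [← hu3]
      refine Finset.prod_congr rfl fun i hi => ?_
      rw [if_neg]
      rintro rfl
      exact hj hi
    · rw [Finset.prod_insert hj]
      simp only [if_true]
      congr 1
      rw [← hu4]
      refine Finset.prod_congr rfl fun i hi => ?_
      rw [if_neg]
      rintro rfl
      exact hj hi

end REF

theorem pREF (F : Type) [Field F] [NumberField F] : S_REF F := by
  classical
  intro ι _ w a b ha hb h
  obtain ⟨u, v, h1, h2, h3⟩ := REF.aux Finset.univ w a b ha hb h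
  exact ⟨u, v, fun i => h1 i (Finset.mem_univ i), h2, h3⟩

end Pool.Agent.T2H95.LF
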