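import Pool.Agent.T2H95.LF.Stm

/-! # Package SQC of project LF -/

set_option autoImplicit false

open MeasureTheory Filter Topology Finset NumberField UniqueFactorizationMonoid

namespace Pool.Agent.T2H95.LF

namespace SQC

variable {F : Type} [Field F] [NumberField F]

lemma mem_tup {J : Type} [Fintype J] {m : Ideal (𝓞 F)} (hm : m ≠ ⊥) (v : J → Ideal (𝓞 F)) :
    v ∈ tupI F J m ↔ ∏ j, v j = m := by
  classical
  unfold tupI
  rw [Finset.mem_filter, Fintype.mem_piFinset]
  constructor
  · exact fun h => h.2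
  · intro h
    refine ⟨fun j => ?_, h⟩
    have h1 : v j ∣ m := by
      rw [← h]
      exact Finset.dvd_prod_of_mem v (Finset.mem_univ j)
    have h2 : v j ≠ ⊥ := by
      rintro hv
      rw [hv] at h1
      exact hm (by simpa using zero_dvd_iff.1 h1)
    have h3 : Ideal.absNorm m ≠ 0 := fun h4 => hm (Ideal.absNorm_eq_zero_iff.1 h4)
    rw [mem_ball]
    exact ⟨h2, Nat.le_of_dvd (Nat.pos_of_ne_zero h3) (map_dvd Ideal.absNorm h1)⟩

end SQC

theorem pSQC (F : Type) [Field F] [NumberField F] (hREF : S_REF F) : S_SQC F := by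
  classical
  intro J _ m hm
  have h2 : m ^ 2 ≠ ⊥ := pow_ne_zero 2 hm
  have hsub : tupI F J (m ^ 2) ⊆
      ((tupI F J m) ×ˢ (tupI F J m)).image
        (fun p : (J → Ideal (𝓞 F)) × (J → Ideal (𝓞 F)) => fun j => p.1 j * p.2 j) := by
    intro w hw
    rw [SQC.mem_tup h2] at hw
    obtain ⟨u, v, h3, h4, h5⟩ := hREF J w m m hm hm (by rw [hw]; ring)
    rw [Finset.mem_image]
    refine ⟨(u, v), ?_, ?_⟩
    · rw [Finset.mem_product]
      exact ⟨(SQC.mem_tup hm u).mpr h4, (SQC.mem_tup hm v).mpr h5⟩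
    · funext j
      exact (h3 j).symm
  have h3 := (Finset.card_le_card hsub).trans Finset.card_image_le
  rw [Finset.card_product] at h3
  have h4 : ((tupI F J (m ^ 2)).card : ℝ) ≤ (((tupI F J m).card * (tupI F J m).card : ℕ) : ℝ) := by
    exact_mod_cast h3
  refine h4.trans (le_of_eq ?_)
  push_cast
  ring

end Pool.Agent.T2H95.LF
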