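import Pool.Agent.T2H95.LF.Stm

set_option autoImplicit false

open MeasureTheory Filter Topology Finset NumberField

namespace Pool.Agent.T2H95.LF

/-- the Sato–Tate measure on `[-2, 2]`: the law of `2 cos (π θ)` for `θ ∈ [0, 1]` with density `2 sin² (π θ)` -/
noncomputable def satoTate : Measure ℝ :=
  ((volume.restrict (Set.Icc (0 : ℝ) 1)).withDensity
    (fun θ => ENNReal.ofReal (2 * Real.sin (Real.pi * θ) ^ 2))).map (fun θ => 2 * Real.cos (Real.pi * θ))

namespace ST

lemma meas_dens : Measurable (fun θ : ℝ => ENNReal.ofReal (2 * Real.sin (Real.pi * θ) ^ 2)) := by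
  fun_prop

lemma meas_cos : Measurable (fun θ : ℝ => 2 * Real.cos (Real.pi * θ)) := by
  fun_prop

lemma total : ∫ θ in Set.Icc (0 : ℝ) 1, 2 * Real.sin (Real.pi * θ) ^ 2 = 1 := by
  rw [integral_Icc_eq_integral_Ioc, ← intervalIntegral.integral_of_le (by norm_num)]
  have h1 : ∫ θ in (0:ℝ)..1, 2 * Real.sin (Real.pi * θ) ^ 2 =
      (Real.pi)⁻¹ * ∫ u in (0:ℝ)..Real.pi, 2 * Real.sin u ^ 2 := by
    have := intervalIntegral.integral_comp_mul_left (fun u => 2 * Real.sin u ^ 2) (c := Real.pi)
      (a := 0) (b := 1) Real.pi_ne_zero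
    simpa using this
  rw [h1, intervalIntegral.integral_const_mul, integral_sin_sq]
  simp
  field_simp

lemma prob : IsProbabilityMeasure satoTate := by
  constructor
  unfold satoTate
  rw [Measure.map_apply meas_cos MeasurableSet.univ, Set.preimage_univ, withDensity_apply _ MeasurableSet.univ,
    Measure.restrict_univ, ← ofReal_integral_eq_lintegral_ofReal, total, ENNReal.ofReal_one]
  · apply Continuous.integrableOn_Icc
    fun_prop
  · exact ae_of_all _ fun θ => by positivity

lemma bdd : ∀ᵐ x ∂satoTate, |x| ≤ 2 := by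
  unfold satoTate
  rw [ae_map_iff meas_cos.aemeasurable (measurableSet_le (by fun_prop) (by fun_prop))]
  refine ae_of_all _ fun θ => ?_
  rw [abs_mul, abs_two]
  have := Real.abs_cos_le_one (Real.pi * θ)
  linarith

lemma symm : satoTate.map (fun x => -x) = satoTate := by
  have hflip : Measurable (fun θ : ℝ => 1 - θ) := by fun_prop
  set ρ : Measure ℝ := (volume.restrict (Set.Icc (0 : ℝ) 1)).withDensity
    (fun θ => ENNReal.ofReal (2 * Real.sin (Real.pi * θ) ^ 2)) with hρ
  have hρf : ρ.map (fun θ : ℝ => 1 - θ) = ρ := by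
    ext s hs
    rw [Measure.map_apply hflip hs, hρ, withDensity_apply _ (hflip hs), withDensity_apply _ hs,
      Measure.restrict_restrict (hflip hs), Measure.restrict_restrict hs]
    have h1 := (Measure.measurePreserving_sub_left (volume : Measure ℝ) 1).setLIntegral_comp_preimage
      (s := s ∩ Set.Icc (0 : ℝ) 1) (hs.inter measurableSet_Icc) (f := fun θ => ENNReal.ofReal (2 * Real.sin (Real.pi * θ) ^ 2))
      meas_dens
    rw [← h1]
    have h2 : (fun x : ℝ => 1 - x) ⁻¹' (s ∩ Set.Icc (0 : ℝ) 1) =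
        ((fun θ : ℝ => 1 - θ) ⁻¹' s) ∩ Set.Icc (0 : ℝ) 1 := by
      ext θ
      simp only [Set.mem_preimage, Set.mem_inter_iff, Set.mem_Icc]
      constructor
      · rintro ⟨a, b, c⟩
        exact ⟨a, by linarith, by linarith⟩
      · rintro ⟨a, b, c⟩
        exact ⟨a, by linarith, by linarith⟩
    rw [h2]
    refine lintegral_congr fun θ => ?_
    congr 1
    have : Real.sin (Real.pi * (1 - θ)) = Real.sin (Real.pi * θ) := by
      rw [mul_sub, mul_one, Real.sin_pi_sub]
    rw [this]
  have h3 : satoTate = ρ.map (fun θ => 2 * Real.cos (Real.pi * θ)) := rfl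
  rw [h3, Measure.map_map measurable_neg meas_cos]
  conv_rhs => rw [← hρf]
  rw [Measure.map_map meas_cos hflip]
  congr 1
  funext θ
  simp only [Function.comp]
  rw [mul_sub, mul_one, Real.cos_pi_sub]
  ring

end ST

/-- the Sato–Tate measures are admissible -/
theorem adm_satoTate (F : Type) [Field F] [NumberField F] : AdmI F (fun _ => satoTate) :=
  ⟨fun _ => ST.prob, fun _ => ST.bdd, fun _ => ST.symm⟩

end Pool.Agent.T2H95.LF
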