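import Pool.Agent.T2H95.LR.HE
import Pool.Agent.T2H95.LF.LAM
import Pool.Agent.T2H95.LF.PAR
import Pool.Agent.T2H95.LF.EXP
import Pool.Agent.T2H95.LF.REF
import Pool.Agent.T2H95.LF.MAT
import Pool.Agent.T2H95.LF.SQC
import Pool.Agent.T2H95.LF.TT
import Pool.Agent.T2H95.LF.CNT
import Pool.Agent.T2H95.LF.HARM
import Pool.Agent.T2H95.LF.GRD
import Pool.Agent.T2H95.LF.OPT
import Pool.Agent.T2H95.LF.BC
import Pool.Agent.T2H95.LF.FIN
import Pool.Agent.T2H95.LF.QF
import Pool.Agent.T2H95.LF.LIN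
import Pool.Agent.T2H95.LF.ST

/-! Assembly of project LF. -/

set_option autoImplicit false

open NumberField

namespace Pool.Agent.T2H95.LF

theorem lam_all (F : Type) [Field F] [NumberField F] : S_LAM F := pLAM F Pool.Agent.T2H95.LR.pHE

theorem exp_all (F : Type) [Field F] [NumberField F] : S_EXP F :=
  pEXP F (lam_all F) (pPAR F Pool.Agent.T2H95.LR.pHE (lam_all F))

theorem cnt_all (F : Type) [Field F] [NumberField F] : S_CNT F :=
  pCNT F (pSQC F (pREF F)) (pTT F (pMAT F (pREF F)))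

theorem bc_all (F : Type) [Field F] [NumberField F] : S_BC F :=
  pBC F (exp_all F) (cnt_all F) (pHARM F) pOPT

theorem fin (F : Type) [Field F] [NumberField F] : S_FIN F :=
  pFIN F (bc_all F) (pGRD F (lam_all F) (pHARM F))

end Pool.Agent.T2H95.LF
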