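import Pool.Agent.T2H95.LR.Stm

/-!
# Project LF (helper95): number fields. MP_21d687_nt, Lindelöf bound for quadratic twists over any number field

Same theorem as project LR (all of it is done there for `ℚ`, files `Pool/Agent/T2H95/LR/<ID>.lean`), now over an
arbitrary number field `F`, which is the setting of Q1: primes become prime ideals, `n ≤ N` becomes `N(I) ≤ N`, and
the Dirichlet characters become an arbitrary family of functions of absolute value `≤ 1` on the ideals, polynomially many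
up to size `Q` (in particular `D ↦ χ_D`, the quadratic Hecke characters of Q1). Nearly every package is the
corresponding LR file with small changes. Every package is INDEPENDENT; what it needs from others are hypotheses
(universally quantified over `F` where needed: `(h : ∀ (F : Type) [Field F] [NumberField F], S_X F)` is fine, or just
`S_X F`). File `Pool/Agent/T2H95/LF/<ID>.lean`: `import Pool.Agent.T2H95.LF.Stm`, `namespace Pool.Agent.T2H95.LF`,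
`theorem p<ID> (F : Type) [Field F] [NumberField F] (h : S_dep F) .. : S_<ID> F`; own lemmas in a namespace `<ID>`.
-/

set_option autoImplicit false

open MeasureTheory Filter Topology Finset NumberField UniqueFactorizationMonoid
open Pool.Agent.T2H95.LR (he S_HE)

namespace Pool.Agent.T2H95.LF

variable (F : Type) [Field F] [NumberField F]

open scoped Classical in
/-- the nonzero ideals of norm at most `N` -/
noncomputable def ball (N : ℕ) : Finset (Ideal (𝓞 F)) :=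
  ((Ideal.finite_setOfPred_absNorm_le (S := 𝓞 F) N).toFinset).filter fun I => I ≠ ⊥

theorem mem_ball (N : ℕ) (I : Ideal (𝓞 F)) : I ∈ ball F N ↔ I ≠ ⊥ ∧ Ideal.absNorm I ≤ N := by
  classical
  unfold ball
  rw [Finset.mem_filter, Set.Finite.mem_toFinset]
  exact and_comm

open scoped Classical in
/-- the multiplicative function `λ_x(I) = ∏_{P | I} U_{v_P(I)}(x_P / 2)` on the nonzero ideals -/
noncomputable def lamI (x : Ideal (𝓞 F) → ℝ) (I : Ideal (𝓞 F)) : ℝ :=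
  ∏ P ∈ (normalizedFactors I).toFinset, he (x P) ((normalizedFactors I).count P)

/-- the partial sums `∑_{N(I) ≤ N} λ_x(I) g(I) N(I)^{-1/2-it}` -/
noncomputable def SI (x : Ideal (𝓞 F) → ℝ) (g : Ideal (𝓞 F) → ℂ) (N : ℕ) (t : ℝ) : ℂ :=
  ∑ I ∈ ball F N, (lamI F x I : ℂ) * g I * ((Ideal.absNorm I : ℕ) : ℂ) ^ (-(1 / 2 : ℂ) - t * Complex.I)

/-- the weighted sum `∑_{N(I) ≤ N} λ_x(I) g(I) N(I)^{-1/2}` -/
noncomputable def WI (x : Ideal (𝓞 F) → ℝ) (g : Ideal (𝓞 F) → ℂ) (N : ℕ) : ℂ :=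
  ∑ I ∈ ball F N, (lamI F x I : ℂ) * g I * ((1 / Real.sqrt (Ideal.absNorm I : ℕ) : ℝ) : ℂ)

/-- the harmonic sum over the ideals -/
noncomputable def HI (M : ℕ) : ℝ := ∑ I ∈ ball F M, 1 / ((Ideal.absNorm I : ℕ) : ℝ)

open scoped Classical in
/-- the tuples of ideals with product `m` (for `m ≠ ⊥`; all entries divide `m`) -/
noncomputable def tupI (J : Type) [Fintype J] (m : Ideal (𝓞 F)) : Finset (J → Ideal (𝓞 F)) :=
  (Fintype.piFinset fun _ : J => ball F (Ideal.absNorm m)).filter fun v => ∏ j, v j = m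

open scoped Classical in
/-- the tuples of nonzero ideals of norm at most `N` whose product is a square -/
noncomputable def sqI (J : Type) [Fintype J] (N : ℕ) : Finset (J → Ideal (𝓞 F)) :=
  (Fintype.piFinset fun _ : J => ball F N).filter fun v => ∃ m : Ideal (𝓞 F), ∏ j, v j = m ^ 2

/-- the number of divisors of `I`, counted as pairs with product `I` -/
noncomputable def dv (I : Ideal (𝓞 F)) : ℕ := (tupI F Bool I).card

/-- probability measures on `[-2, 2]`, symmetric under `x ↦ -x`, one for each ideal (only prime ideals matter) -/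
structure AdmI (μ : Ideal (𝓞 F) → Measure ℝ) : Prop where
  prob : ∀ P, IsProbabilityMeasure (μ P)
  bdd : ∀ P, ∀ᵐ x ∂(μ P), |x| ≤ 2
  symm : ∀ P, (μ P).map (fun x => -x) = μ P

/-- LAM (30 min, Deps: S_HE of LR). `|λ_x(I)| ≤ ∏ (v_P(I) + 1)`, and this is the number of sub-multisets of
`normalizedFactors I` (`Multiset.card_Iic`), which inject into `tupI F Bool I` by `s ↦ (s.prod, (M - s).prod)`. Second part:
finite product of continuous functions of the coordinates. Third part: `(a,b) ↦ a` is injective on `tupI F Bool I`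
(cancellation) with values in `ball F (absNorm I)`. -/
def S_LAM : Prop :=
  (∀ (x : Ideal (𝓞 F) → ℝ) (I : Ideal (𝓞 F)), (∀ P, |x P| ≤ 2) → I ≠ ⊥ → |lamI F x I| ≤ dv F I) ∧
  (∀ I : Ideal (𝓞 F), Continuous fun x : Ideal (𝓞 F) → ℝ => lamI F x I) ∧
  (∀ I : Ideal (𝓞 F), I ≠ ⊥ → dv F I ≤ (ball F (Ideal.absNorm I)).card)

/-- PAR (25 min, Deps: S_HE, LAM; copy LR/PAR.lean). If `∏ v_i` is not a square, some prime ideal `P` has odd
multiplicity in `normalizedFactors (∏ v_i)` (`normalizedFactors_mul`, `Multiset.count_nsmul`; all even gives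
`∏ v = (∏ P^(e/2))²`, `prod_normalizedFactors_eq`); flip the sign of the coordinate `P`. -/
def S_PAR : Prop := ∀ (μ : Ideal (𝓞 F) → Measure ℝ), AdmI F μ → ∀ (J : Type) [Fintype J] (v : J → Ideal (𝓞 F)),
  (∀ j, v j ≠ ⊥) → (¬ ∃ m : Ideal (𝓞 F), ∏ j, v j = m ^ 2) → ∫ x, ∏ j, lamI F x (v j) ∂(Measure.infinitePi μ) = 0

/-- EXP (20 min, Deps: LAM, PAR; copy LR/EXP.lean). -/
def S_EXP : Prop := ∀ (μ : Ideal (𝓞 F) → Measure ℝ), AdmI F μ → ∀ (g : Ideal (𝓞 F) → ℂ), (∀ I, ‖g I‖ ≤ 1) →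
  ∀ k N : ℕ, 1 ≤ k →
  Integrable (fun x => ‖WI F x g N‖ ^ (2 * k)) (Measure.infinitePi μ) ∧
  ∫ x, ‖WI F x g N‖ ^ (2 * k) ∂(Measure.infinitePi μ) ≤
    ∑ v ∈ sqI F (Fin k ⊕ Fin k) N, ∏ j, (dv F (v j) : ℝ) / Real.sqrt (Ideal.absNorm (v j) : ℕ)

/-- REF (15 min, no Deps; as in LR). Refinement (`exists_dvd_and_dvd_of_dvd_mul`; gcd of ideals is the sum). -/
def S_REF : Prop := ∀ (ι : Type) [Fintype ι] (w : ι → Ideal (𝓞 F)) (a b : Ideal (𝓞 F)), a ≠ ⊥ → b ≠ ⊥ →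
  ∏ i, w i = a * b → ∃ u v : ι → Ideal (𝓞 F), (∀ i, w i = u i * v i) ∧ ∏ i, u i = a ∧ ∏ i, v i = b

/-- MAT (10 min, Deps: REF; copy LR/MAT.lean). -/
def S_MAT : Prop := ∀ (ι κ : Type) [Fintype ι] [Fintype κ] (u : ι → Ideal (𝓞 F)) (v : κ → Ideal (𝓞 F))
  (m : Ideal (𝓞 F)), m ≠ ⊥ → ∏ i, u i = m → ∏ j, v j = m →
  ∃ x : ι → κ → Ideal (𝓞 F), (∀ i, ∏ j, x i j = u i) ∧ ∀ j, ∏ i, x i j = v j

/-- SQC (15 min, Deps: REF; as in LR). -/
def S_SQC : Prop := ∀ (J : Type) [Fintype J] (m : Ideal (𝓞 F)), m ≠ ⊥ →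
  ((tupI F J (m ^ 2)).card : ℝ) ≤ ((tupI F J m).card : ℝ) ^ 2

/-- TT (20 min, Deps: MAT; copy LR/TT.lean). -/
def S_TT : Prop := ∀ (J : Type) [Fintype J] (M : ℕ),
  ∑ m ∈ ball F M, ((tupI F J m).card : ℝ) ^ 2 / (Ideal.absNorm m : ℕ) ≤ HI F M ^ (Fintype.card J ^ 2)

/-- CNT (25 min, Deps: SQC, TT; copy LR/CNT.lean). -/
def S_CNT : Prop := ∀ k N : ℕ, 1 ≤ k →
  ∑ v ∈ sqI F (Fin k ⊕ Fin k) N, ∏ j, (dv F (v j) : ℝ) / Real.sqrt (Ideal.absNorm (v j) : ℕ) ≤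
    HI F (N ^ k) ^ (16 * k ^ 2)

/-- HARM (30 min, no Deps). `Ideal.tendsto_norm_le_div_atTop₀` gives `#ball(N) ≤ C N` for `N ≥ 1`; then
`∑ 1/N(I) ≤ ∑_{i ≤ log₂ M} #ball(2^(i+1)) / 2^i ≤ 2C (1 + log₂ M)` (or Abel summation). -/
def S_HARM : Prop := ∃ C : ℝ, 1 ≤ C ∧ (∀ N : ℕ, 1 ≤ N → ((ball F N).card : ℝ) ≤ C * N) ∧
  ∀ M : ℕ, 1 ≤ M → HI F M ≤ C * (1 + Real.log M)

/-- GRD (25 min, Deps: LAM, HARM; copy LR/GRD.lean). `|λ(I)| ≤ dv I ≤ #ball(N) ≤ C N`, `log N ≤ N`. -/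
def S_GRD : Prop := ∃ C : ℝ, 1 ≤ C ∧ ∀ (x : Ideal (𝓞 F) → ℝ), (∀ P, |x P| ≤ 2) →
  ∀ (g : Ideal (𝓞 F) → ℂ), (∀ I, ‖g I‖ ≤ 1) → ∀ (N : ℕ) (t t' : ℝ),
  ‖SI F x g N t - SI F x g N t'‖ ≤ C * (N : ℝ) ^ 3 * |t - t'| ∧ ‖SI F x g N t‖ ≤ C * (N : ℝ) ^ 2

/-- OPT (20 min, no Deps; copy LR/OPT.lean; nothing about `F`). -/
def S_OPT : Prop := ∀ (C : ℝ) (a : ℕ), 1 ≤ C → ∃ C' : ℝ, 0 ≤ C' ∧ ∀ᶠ Q : ℕ in atTop, ∃ k : ℕ, 1 ≤ k ∧
  C * (Q : ℝ) ^ a * (C * (1 + k * Real.log Q)) ^ (16 * k ^ 2) ≤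
    1 / (Q : ℝ) ^ 2 * Real.exp (C' * Real.sqrt (Real.log Q * Real.log (Real.log Q))) ^ (2 * k)

/-- a family of functions of absolute value `≤ 1` on the ideals with a size `cd i`, polynomially many up to size `Q` -/
structure Fam (ι : Type) (g : ι → Ideal (𝓞 F) → ℂ) (cd : ι → ℕ) : Prop where
  bdd : ∀ i I, ‖g i I‖ ≤ 1
  cnt : ∃ A a : ℕ, ∀ Q : ℕ, (g '' {i | cd i ≤ Q}).Finite ∧ (g '' {i | cd i ≤ Q}).ncard ≤ A * Q ^ a

/-- BC (45 min, Deps: EXP, CNT, HARM, OPT; copy LR/BC.lean) [helper95]. -/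
def S_BC : Prop := ∀ (ι : Type) (g : ι → Ideal (𝓞 F) → ℂ) (cd : ι → ℕ), Fam F ι g cd →
  ∃ C' : ℝ, 0 ≤ C' ∧ ∀ (μ : Ideal (𝓞 F) → Measure ℝ), AdmI F μ → ∀ᵐ x ∂(Measure.infinitePi μ), ∀ᶠ Q : ℕ in atTop,
  ∀ (i : ι) (N : ℕ) (j : ℤ), cd i ≤ Q → N ≤ Q → |j| ≤ (Q : ℤ) ^ 5 →
    ‖SI F x (g i) N ((j : ℝ) / (Q : ℝ) ^ 4)‖ ≤ Real.exp (C' * Real.sqrt (Real.log Q * Real.log (Real.log Q)))

/-- FIN (30 min, Deps: BC, GRD; copy LR/FIN.lean). -/
def S_FIN : Prop := ∀ (ι : Type) (g : ι → Ideal (𝓞 F) → ℂ) (cd : ι → ℕ), Fam F ι g cd →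
  ∀ (μ : Ideal (𝓞 F) → Measure ℝ), AdmI F μ → ∀ᵐ x ∂(Measure.infinitePi μ), ∃ C : ℝ,
  ∀ (Q : ℝ) (i : ι) (N : ℕ) (t : ℝ), 3 ≤ Q → (cd i : ℝ) ≤ Q → (N : ℝ) ≤ Q → |t| ≤ Q →
    ‖SI F x (g i) N t‖ ≤ Real.exp (C * Real.sqrt (Real.log Q * Real.log (Real.log Q)))

/-- QF (40 min, Deps: HARM). A function of `D ∈ 𝓞 F \ {0}` which depends only on `D` up to squares of units gives a
family in the sense of `Fam`, with size `|N(D)|`: the ideal `(D)` lies in `ball F Q` (at most `C Q` ideals), `D` is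
determined by it up to a unit, and the group of units modulo squares is finite (units are finitely generated). -/
def S_QF : Prop := ∀ χ : 𝓞 F → Ideal (𝓞 F) → ℂ, (∀ D I, ‖χ D I‖ ≤ 1) →
  (∀ (u : (𝓞 F)ˣ) (D : 𝓞 F), χ ((u : 𝓞 F) ^ 2 * D) = χ D) →
  Fam F {D : 𝓞 F // D ≠ 0} (fun D => χ D.1) (fun D => Ideal.absNorm (Ideal.span {D.1}))

/-- LIN (30 min, Deps: FIN). The Lindelöf form: `N ≤ |D|^A`, `|t| ≤ |D|^A` and the bound `C |D|^β`: take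
`Q = max 3 |D|^(max A 1)` and `√(log Q log log Q) = o(log Q)`. -/
def S_LIN : Prop := ∀ (ι : Type) (g : ι → Ideal (𝓞 F) → ℂ) (cd : ι → ℕ), Fam F ι g cd → (∀ i, 1 ≤ cd i) →
  ∀ (μ : Ideal (𝓞 F) → Measure ℝ), AdmI F μ → ∀ᵐ x ∂(Measure.infinitePi μ), ∀ A β : ℝ, 0 < A → 0 < β → ∃ C : ℝ,
  ∀ (i : ι) (N : ℕ) (t : ℝ), (N : ℝ) ≤ (cd i : ℝ) ^ A → |t| ≤ (cd i : ℝ) ^ A →
    ‖SI F x (g i) N t‖ ≤ C * (cd i : ℝ) ^ β

end Pool.Agent.T2H95.LF
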